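import Pool.Agent.EVW.Api
import Pool.Agent.EVS.CNZ

set_option autoImplicit false

namespace EVW

open Polynomial EVR EVS

noncomputable section

namespace CNF_

theorem key {k : Subfield ℂ} (hk : Clo k) {b : Polynomial k} {e : ℕ} (he : 1 ≤ e)
    (hm : Pfr e (C b : Polynomial (Polynomial k))) (hb : b ≠ 0) (c : ℂ) (j : ℕ)
    (h1 : (X - C c) ^ (e * j) ∣ b.map k.subtype) : j = 0 := by
  by_contra hj
  have hj' : 1 ≤ j := Nat.one_le_iff_ne_zero.2 hj
  have h4 : (X - C c : ℂ[X]) ^ e ∣ b.map k.subtype :=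
    (pow_dvd_pow _ (Nat.le_mul_of_pos_right _ hj')).trans h1
  have hc : c ∈ k := CNZ_.root_mem hk hb ((dvd_pow_self _ (by omega)).trans h4)
  refine hm (C (X - C (⟨c, hc⟩ : k))) ?_ ?_
  · exact (Polynomial.prime_C_iff.2 (Polynomial.prime_X_sub_C _)).irreducible
  · exact CNZ_.pow_dvd (⟨c, hc⟩ : k) e h4

end CNF_

theorem cnf_proof (hMTF : Stmt_MTF) (hKER : Stmt_KER) : Stmt_CNF := by
  intro k b u v m n hk hmn hm hb hb' h
  have hb0 : b.map k.subtype ≠ 0 := by
    rw [Ne, Polynomial.map_eq_zero]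
    exact hb
  have hmain : ∀ (D : Derivation ℤ ℂ ℂ) (E : Derivation ℤ K K), IsExt D E → Kil k D →
      E u = 0 ∧ E v = 0 := by
    intro D E hE hD
    refine hMTF E 0 (b.map k.subtype) 1 u v m n hmn ?_ ?_ hb0 one_ne_zero ?_ ?_ h
    · intro p
      refine ⟨cd D p, E_pz hE p, fun _ => ?_⟩
      have := natDegree_cd_le D p
      omega
    · rw [E_pz hE, cd_map hD, map_zero]
    · intro c j h1
      rw [CNF_.key hk (lcm_pos hmn) hm hb c j h1, pow_zero]
    · rw [natDegree_one, Polynomial.natDegree_map]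
      push_cast
      simpa using hb'
  exact ⟨hKER k u hk fun D E hE hD => (hmain D E hE hD).1,
    hKER k v hk fun D E hE hD => (hmain D E hE hD).2⟩

end

end EVW
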