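import Pool.Agent.EVW.Api

set_option autoImplicit false

namespace EVW

open Polynomial EVR EVS

theorem csf_proof (hMTF : Stmt_MTF) (hDDZ : Stmt_DDZ) : Stmt_CSF := by
  intro β u v m n hmn hβ heq
  obtain ⟨E, hE, hK⟩ := hDDZ
  have hl := lcm_pos hmn
  have hE0 : ∀ c : ℂ, E (pz (C c)) = 0 := by
    intro c
    rw [hE, derivative_C, map_zero]
  have key := hMTF E (-1) (C β) 1 u v m n hmn ?_ (hE0 β) (C_ne_zero.2 hβ) one_ne_zero ?_ ?_ ?_
  · obtain ⟨h1, h2⟩ := key
    obtain ⟨u0, hu⟩ := hK u h1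
    obtain ⟨v0, hv⟩ := hK v h2
    exact ⟨u0, v0, hu, hv⟩
  · intro p
    refine ⟨derivative p, hE p, fun hp => ?_⟩
    have h1 : p.natDegree ≠ 0 := fun h0 => hp (derivative_of_natDegree_zero h0)
    have h2 := natDegree_derivative_lt h1
    omega
  · intro c j h4
    by_cases hj : j = 0
    · subst hj
      rw [pow_zero]
    · exfalso
      have h1 := natDegree_le_of_dvd h4 (C_ne_zero.2 hβ)
      rw [natDegree_C, natDegree_pow, natDegree_X_sub_C, mul_one] at h1
      have h2 : 0 < m.lcm n * j := Nat.mul_pos hl (Nat.pos_of_ne_zero hj)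
      omega
  · rw [natDegree_one, natDegree_C]
    push_cast
    omega
  · rw [pz_C]
    exact heq

end EVW
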