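import Pool.Agent.EVW.Api
import Pool.Agent.EVS.DVA

/-!
# Squad EVW (MP_3e5173_lc), module DAE: points not over `k`
-/

set_option autoImplicit false

namespace EVW

open Polynomial EVR EVS

open DVA_ in
theorem dae_proof (hPRI : Stmt_PRI) : Stmt_DAE := by
  intro k f B c j e D hk hTr he hM hB hc h4 hD
  rcases Nat.eq_zero_or_pos j with hj | hj
  · rw [hj, pow_zero]
    exact one_dvd _
  · have hej : 0 < e * j := Nat.mul_pos he hj
    have hG0 : ev2 k c (f.eval c) B = 0 := by
      rw [← eval_bev]
      exact dvd_iff_isRoot.1 ((dvd_pow_self _ hej.ne').trans h4)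
    obtain ⟨π, hπ, hπ0, hπ', hker⟩ := hPRI k c (f.eval c) B hk hc hB hG0
    have hb0 : bev k f π ≠ 0 := bev_ne_zero hTr hπ.ne_zero
    obtain ⟨u, hu, hu'⟩ := exists_eq_pow_rootMultiplicity_mul_and_not_dvd (bev k f π) hb0 c
    set m := (bev k f π).rootMultiplicity c with hm
    have hm1 : 1 ≤ m := by
      rw [hm, Nat.one_le_iff_ne_zero, ← Nat.pos_iff_ne_zero, rootMultiplicity_pos hb0, IsRoot.def,
        eval_bev]
      exact hπ0
    have hpow := pow_dvd (m := m) (fun G h => hker G (by rw [← eval_bev]; exact h)) hu hu'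
    have hjm : j ≤ m - 1 := by
      by_contra hcon
      apply hM π hπ
      refine hpow e (e * j) B ?_ h4
      have h5 : m ≤ j := by omega
      have h6 : m * e ≤ e * j := by
        rw [Nat.mul_comm m e]
        exact Nat.mul_le_mul_left e h5
      omega
    have h1 : (X - C c) ^ (m - 1) ∣ bev k f (derivative π) * cd D f := by
      rw [← cd_bev hD, hu]
      exact cd_dvd D c m u
    have h2 : ¬ (X - C c) ∣ bev k f (derivative π) := by
      rw [dvd_iff_isRoot, IsRoot.def, eval_bev]
      exact hπ'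
    exact (pow_dvd_pow _ hjm).trans ((prime_X_sub_C c).pow_dvd_of_dvd_mul_left (m - 1) h2 h1)

end EVW
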