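import Pool.Agent.EVW.Api

/-!
# Squad EVW (MP_3e5173_lc), module FR1: the first theorem
-/

set_option autoImplicit false

namespace EVW

open Polynomial EVR EVS

theorem fr1_proof (hFLC : Stmt_FLC) (hCO3 : Stmt_CO3) (hTSR : Stmt_TSR) (hDFT : Stmt_DFT)
    (hSPR : Stmt_SPR) : Stmt_FR1 := by
  intro R N Φ hΦ hall
  obtain ⟨S, hSc, hS⟩ := hCO3.2 R N Unit Φ hΦ
  obtain ⟨k0, hclo, -, hk0, hind⟩ := hFLC S hSc
  have hB : BJO (kZ k0) R N Unit Φ := hS k0 hk0
  obtain ⟨f, -, hf⟩ := hTSR k0 hclo hind (2 * N) R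
  have hD : Dft 0 k0 k0 := hDFT.2.2.2 k0 hclo
  obtain ⟨T, hT, hT'⟩ := hSPR (2 * N) R k0 f hf N Unit Φ hB inferInstance 0 k0 (by omega) hD
    (fun _ => X) (fun _ => 1) (by
      intro i
      refine ⟨fun n => ?_, fun n => ?_, ?_⟩
      · rw [coeff_X]
        split_ifs
        · exact one_mem _
        · exact zero_mem _
      · rw [coeff_one]
        split_ifs
        · exact one_mem _
        · exact zero_mem _
      · rw [eval_one]
        exact one_ne_zero) (by
      have h := hall f
      simpa using h)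
  refine hT.subset ?_
  intro x hx
  by_contra hxT
  have h := (hT' x hxT).2
  apply hx
  simpa using h

end EVW
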