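import Pool.Agent.EVW.Api

/-!
# Squad EVW (MP_3e5173_lc), module FR2: the second theorem
-/

set_option autoImplicit false

namespace EVW

open Polynomial EVR EVS

noncomputable section

namespace FR2_

/-- the homomorphism `k[Z] → ℂ(Z)` -/
def io (k : Subfield ℂ) : Polynomial k →+* K :=
  Polynomial.eval₂RingHom (cst.comp k.subtype) (RatFunc.X : K)

theorem io_apply (k : Subfield ℂ) (P : Polynomial k) : io k P = pz (P.map k.subtype) := by
  show P.eval₂ (cst.comp k.subtype) (RatFunc.X : K) = _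
  induction P using Polynomial.induction_on' with
  | add p q hp hq => rw [eval₂_add, hp, hq, Polynomial.map_add, map_add]
  | monomial n a =>
    rw [← C_mul_X_pow_eq_monomial, eval₂_mul, eval₂_C, eval₂_pow, eval₂_X, Polynomial.map_mul,
      Polynomial.map_C, Polynomial.map_pow, Polynomial.map_X, map_mul, map_pow, pz_C, pz_X]
    rfl

theorem io_mem (k : Subfield ℂ) (P : Polynomial k) : io k P ∈ kZ k := by
  rw [io_apply]
  exact pz_mem_kZ (coeff_map_mem P)

theorem io_inj (k : Subfield ℂ) : Function.Injective (io k) := by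
  rw [injective_iff_map_eq_zero]
  intro P hP
  rw [io_apply] at hP
  by_contra h
  have h1 : P.map k.subtype ≠ 0 := by
    rw [Ne, Polynomial.map_eq_zero]
    exact h
  exact pz_ne_zero.2 h1 hP

/-- the value at `f / Z` -/
def vv (k : Subfield ℂ) (f : ℂ[X]) (G : Polynomial (Polynomial k)) : K :=
  G.eval₂ (io k) (pz f / RatFunc.X)

theorem vv_mem (k : Subfield ℂ) (f : ℂ[X]) (G : Polynomial (Polynomial k)) :
    vv k f G ∈ fld k f := by
  unfold vv
  rw [eval₂_eq_sum_range]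
  refine Subfield.sum_mem _ fun i _ => mul_mem (kZ_le_fld k f (io_mem k _)) (pow_mem ?_ i)
  exact div_mem (pz_mem_fld k f) (kZ_le_fld k f (X_mem_kZ k))

theorem vv_ne_zero {k : Subfield ℂ} {f : ℂ[X]} (h : Tr (kZ k) (pz f))
    {G : Polynomial (Polynomial k)} (hG : G ≠ 0) : vv k f G ≠ 0 := by
  intro h0
  have hX : (RatFunc.X : K) ≠ 0 := RatFunc.X_ne_zero
  set P : K[X] := (G.map (io k)).comp (C (RatFunc.X : K)⁻¹ * X) with hP
  have hc : ∀ n, P.coeff n = io k (G.coeff n) * ((RatFunc.X : K)⁻¹) ^ n := by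
    intro n
    rw [hP, comp_C_mul_X_coeff, coeff_map]
  have h1 : P = 0 := by
    refine h P (fun n => ?_) ?_
    · rw [hc]
      exact mul_mem (io_mem k _) (pow_mem (inv_mem (X_mem_kZ k)) n)
    · rw [hP, eval_comp, eval_mul, eval_C, eval_X, eval_map, mul_comm, ← div_eq_mul_inv]
      exact h0
  apply hG
  ext1 n
  have h2 := hc n
  rw [h1, coeff_zero] at h2
  have h3 : io k (G.coeff n) = 0 := by
    rcases mul_eq_zero.1 h2.symm with h4 | h4
    · exact h4
    · exact absurd h4 (pow_ne_zero n (inv_ne_zero hX))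
  rw [coeff_zero]
  exact (map_eq_zero_iff _ (io_inj k)).1 h3

/-- representation of the elements of `k(Z)(f)` -/
theorem exists_frac {k : Subfield ℂ} {f : ℂ[X]} (x : fld k f) :
    ∃ P Q : Polynomial (Polynomial k), pz (bev k f Q) ≠ 0 ∧
      x = (⟨pz (bev k f P), pz_bev_mem k f P⟩ : fld k f) / ⟨pz (bev k f Q), pz_bev_mem k f Q⟩ := by
  obtain ⟨P, Q, h0, h⟩ := mem_fld_iff.1 x.2
  exact ⟨P, Q, h0, Subtype.ext h⟩

end FR2_

open FR2_ in
theorem fr2_proof (hFLC : Stmt_FLC) (hCO3 : Stmt_CO3) (hTSR : Stmt_TSR) (hUNV : Stmt_UNV)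
    (hDFT : Stmt_DFT) (hTR2 : Stmt_TR2) (hINR : Stmt_INR) : Stmt_FR2 := by
  intro R N Φ hΦ heq
  obtain ⟨S, hSc, hS⟩ := hCO3.1 R N Unit Φ hΦ
  obtain ⟨k, hk, hkc, hkS, hind⟩ := hFLC S hSc
  have hB : BIO (kZ k) R N Unit Φ := hS k hkS
  obtain ⟨f, hf0, hT⟩ := hTSR k hk hind (2 * N) R
  have hD0 : Dft 0 k k := hDFT.2.2.2 k hk
  have hDN : Dft (2 * N) k k := hDFT.1 0 (2 * N) k k (Nat.zero_le _) hD0
  obtain ⟨k', γ, d, e, e', -, -, hG, -⟩ := hT k hDN
  have hD : ∃ D : Derivation ℤ ℂ ℂ, Kil k D ∧ cd D f ≠ 0 := by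
    obtain ⟨D, hD1, hD2⟩ := hG.big
    refine ⟨D, hD1, fun h0 => ?_⟩
    rw [h0, natDegree_zero] at hD2
    have := hG.lt
    omega
  have hTr : Tr (kZ k) (pz f) := hTR2 k f hD
  obtain ⟨θ, hθ⟩ := hUNV k f k.subtype (RatFunc.X : K) (pz f / RatFunc.X) hTr
    (fun G hG => vv_ne_zero hTr hG)
  have hθ' : ∀ G : Polynomial (Polynomial k), θ ⟨pz (bev k f G), pz_bev_mem k f G⟩ = vv k f G :=
    fun G => hθ G _
  have hX : (RatFunc.X : K) ≠ 0 := RatFunc.X_ne_zero
  -- `θ` fixes `k(Z)`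
  have hpz : ∀ P : Polynomial k, θ ⟨pz (bev k f (C P)), pz_bev_mem k f (C P)⟩ =
      pz (P.map k.subtype) := by
    intro P
    rw [hθ' (C P)]
    unfold vv
    rw [eval₂_C, io_apply]
  have hfix : ∀ (g : K) (hg : g ∈ kZ k), θ ⟨g, kZ_le_fld k f hg⟩ = g := by
    intro g hg
    obtain ⟨P, Q, hQ, hgPQ⟩ := mem_kZ_iff.1 hg
    have e1 : (⟨g, kZ_le_fld k f hg⟩ : fld k f) =
        (⟨pz (bev k f (C P)), pz_bev_mem k f (C P)⟩ : fld k f) /
          ⟨pz (bev k f (C Q)), pz_bev_mem k f (C Q)⟩ := by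
      apply Subtype.ext
      show g = pz (bev k f (C P)) / pz (bev k f (C Q))
      rw [bev_C, bev_C]
      exact hgPQ
    rw [e1, map_div₀, hpz, hpz]
    exact hgPQ.symm
  have hPar : Par 0 k f (fld k f).subtype θ := by
    refine ⟨fun g hg => ⟨⟨g, kZ_le_fld k f hg⟩, rfl, hfix g hg⟩, k, k, hk, hk, le_refl k,
      le_refl k, hD0, hD0, ?_, ?_, ?_⟩
    · intro g
      constructor
      · intro hg
        exact ⟨⟨g, hg⟩, rfl⟩
      · rintro ⟨x, rfl⟩
        exact x.2
    · intro g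
      constructor
      · intro hg
        have h1 : fld k f ≤ θ.fieldRange := by
          refine Subfield.closure_le.2 ?_
          rintro y (hy | hy)
          · exact ⟨⟨y, kZ_le_fld k f hy⟩, hfix y hy⟩
          · rw [Set.mem_singleton_iff] at hy
            subst hy
            have hX' : (RatFunc.X : K) ∈ θ.fieldRange :=
              ⟨⟨RatFunc.X, kZ_le_fld k f (X_mem_kZ k)⟩, hfix _ (X_mem_kZ k)⟩
            have hf' : pz f / RatFunc.X ∈ θ.fieldRange := by
              refine ⟨⟨pz (bev k f X), pz_bev_mem k f X⟩, ?_⟩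
              rw [hθ' X]
              unfold vv
              rw [eval₂_X]
            have h2 := mul_mem hf' hX'
            rw [div_mul_cancel₀ _ hX] at h2
            exact h2
        obtain ⟨x, hx⟩ := h1 hg
        exact ⟨x, hx⟩
      · rintro ⟨x, rfl⟩
        obtain ⟨P, Q, hQ, rfl⟩ := exists_frac x
        rw [map_div₀, hθ', hθ']
        exact div_mem (vv_mem k f P) (vv_mem k f Q)
    · intro x
      constructor
      · rintro ⟨c, hc, hx⟩
        refine ⟨c, hc, ?_⟩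
        have h1 : x = ⟨cst c, kZ_le_fld k f (cst_mem_kZ hc)⟩ := Subtype.ext hx
        rw [h1]
        exact hfix _ (cst_mem_kZ hc)
      · rintro ⟨c, hc, hx⟩
        refine ⟨c, hc, ?_⟩
        have h1 : x = ⟨cst c, kZ_le_fld k f (cst_mem_kZ hc)⟩ := by
          apply θ.injective
          rw [hx, hfix _ (cst_mem_kZ hc)]
        rw [h1]
        rfl
  have hmain := hINR (2 * N) R k f hkc hT N Unit Φ hB 0 (by omega) (fld k f) (fld k f).subtype θ
    hPar (fun _ => ⟨pz (bev k f X), pz_bev_mem k f X⟩)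
  have hΦ' : ∀ x : K, Φ (fun _ => x) ↔ x ∈ O0 := by
    intro x
    rw [← heq]
    rfl
  have h1 : Φ (fun _ => (fld k f).subtype (⟨pz (bev k f X), pz_bev_mem k f X⟩ : fld k f)) := by
    refine (hΦ' _).2 ⟨f, 1, by simp, ?_⟩
    show pz (bev k f X) * pz 1 = pz f
    rw [bev_X, map_one, mul_one]
  have h2 := (hΦ' _).1 (hmain.1 h1)
  rw [hθ' X] at h2
  unfold vv at h2
  rw [eval₂_X] at h2
  obtain ⟨p, q, hq, h3⟩ := h2
  rw [div_mul_eq_mul_div, div_eq_iff hX, ← pz_X, ← map_mul, ← map_mul, pz_inj] at h3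
  have h4 := congrArg (Polynomial.eval 0) h3
  rw [eval_mul, eval_mul, eval_X, mul_zero] at h4
  rcases mul_eq_zero.1 h4 with h5 | h5
  · exact hf0 h5
  · exact hq h5

end

end EVW
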