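import Pool.Agent.EVW.Api
import Pool.Agent.EVS.INV

/-!
# Squad EVW (MP_3e5173_lc), module INR: invariance of the conditions
-/

set_option autoImplicit false

namespace EVW

open Polynomial EVR EVS

noncomputable section

namespace INR_

open INV_

/-- quantifiers over all of `ℂ(Z)` -/
theorem free_case (hQTI : Stmt_QTI) (hRA2 : Stmt_RA2) (hDFT : Stmt_DFT) (hQNI : Stmt_QNI)
    {s : ℕ} {k0 : Subfield ℂ} {f : ℂ[X]} (hk0 : ¬ (k0 : Set ℂ).Countable) (hT : Tst s k0 f)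
    {ι : Type} {Φ : (Option ι → K) → Prop} (h : QIO (kZ k0) (Option ι) Φ) {s' : ℕ} (hs : s' ≤ s)
    {X : Type} [Field X] {ε1 ε2 : X →+* K} (hP : Par s' k0 f ε1 ε2) (y : ι → X)
    (ht : ∃ t, Φ (ext (fun i => ε1 (y i)) t)) : ∃ t, Φ (ext (fun i => ε2 (y i)) t) := by
  obtain ⟨t, ht⟩ := ht
  have hx : ∃ x : X, Φ (ext (fun i => ε1 (y i)) (ε1 x)) := by
    obtain ⟨hp0, k1, k2, -, -, h3, -, h5, -, h7, -⟩ := hP
    by_cases hal : IsAlgebraic (fld k1 f) t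
    · obtain ⟨x, hx⟩ := (h7 t).1 (alg_mem hRA2 hDFT hT hs h5 hal)
      exact ⟨x, by rw [hx]; exact ht⟩
    · have hcnt := hQTI (fld k1 f) ι Φ (h.mono ((kZ_mono h3).trans (kZ_le_fld k1 f)))
        (fun i => ε1 (y i)) t (fun i => (h7 _).2 ⟨y i, rfl⟩) hal
      have hpre : {c : ℂ | ¬ (Φ (ext (fun i => ε1 (y i)) (cst c)) ↔
          Φ (ext (fun i => ε1 (y i)) t))}.Countable := by
        have h1 := hcnt.preimage (f := fun c : ℂ => (cst c : K)) (fun a b hab => by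
          have h2 : (cst a : K) = cst b := hab
          rw [← pz_C, ← pz_C] at h2
          exact C_injective (pz_inj.1 h2))
        exact h1
      have hne : ∃ c ∈ k0, Φ (ext (fun i => ε1 (y i)) (cst c)) ↔
          Φ (ext (fun i => ε1 (y i)) t) := by
        by_contra hcon
        apply hk0
        refine hpre.mono fun c hc => ?_
        intro h1
        exact hcon ⟨c, hc, h1⟩
      obtain ⟨c, hc, hiff⟩ := hne
      obtain ⟨x, hx1, -⟩ := hp0 (cst c) (cst_mem_kZ hc)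
      exact ⟨x, by rw [hx1]; exact hiff.2 ht⟩
  obtain ⟨x, hx⟩ := hx
  refine ⟨ε2 x, ?_⟩
  have h1 := hQNI (kZ k0) X ε1 ε2 hP.1 (Option ι) Φ h (ex y x)
  rw [ex_eq, ex_eq] at h1
  exact h1.1 hx

/-- the induction -/
theorem main (hQTI : Stmt_QTI) (hRA2 : Stmt_RA2) (hPT2 : Stmt_PT2) (hPTF : Stmt_PTF)
    (hDFT : Stmt_DFT) (hQNI : Stmt_QNI) (hEXP : Stmt_EXP) {s r : ℕ} {k0 : Subfield ℂ} {f : ℂ[X]}
    (hk0 : ¬ (k0 : Set ℂ).Countable)
    (hTR : TsR s r k0 f) {N : ℕ} {ι : Type} {Φ : (ι → K) → Prop} (hΦ : BIO (kZ k0) r N ι Φ) :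
    ∀ s' : ℕ, s' + 2 * N ≤ s → ∀ (X : Type) [Field X] (ε1 ε2 : X →+* K), Par s' k0 f ε1 ε2 →
      ∀ y : ι → X, (Φ (fun i => ε1 (y i)) ↔ Φ (fun i => ε2 (y i))) := by
  have hT : Tst s k0 f := hTR.tst
  induction hΦ with
  | @qf N ι Φ h =>
    intro s' hs X _ ε1 ε2 hP y
    exact hQNI (kZ k0) X ε1 ε2 hP.1 ι Φ h y
  | @free N ι Φ h =>
    intro s' hs
    exact iff_of (Φ := fun y => ∃ t : K, Φ (ext y t)) fun X _ ε1 ε2 hP y ht =>
      free_case hQTI hRA2 hDFT hQNI hk0 hT h (by omega) hP y ht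
  | @neg N ι Φ h ih =>
    intro s' hs X _ ε1 ε2 hP y
    exact not_congr (ih s' hs X ε1 ε2 hP y)
  | @all N ι Φ h ih =>
    intro s' hs X _ ε1 ε2 hP y
    exact forall_congr' fun n => ih n s' hs X ε1 ε2 hP y
  | @cnt N ι W hW Φ h ih =>
    intro s' hs
    refine iff_of (Φ := fun y => ∃ n : ℕ, Φ (ext y (W n))) fun X _ ε1 ε2 hP y ht => ?_
    obtain ⟨n, hn⟩ := ht
    obtain ⟨x, hx1, hx2⟩ := hP.1 (W n) (hW n)
    refine ⟨n, ?_⟩
    have h1 := ih s' hs X ε1 ε2 hP (ex y x)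
    rw [ex_eq, ex_eq, hx1, hx2] at h1
    exact h1.1 hn
  | @const N ι Φ h ih =>
    intro s' hs
    refine iff_of (Φ := fun y => ∃ c : ℂ, Φ (ext y (cst c))) fun X _ ε1 ε2 hP y ht => ?_
    obtain ⟨c, hc⟩ := ht
    obtain ⟨X', _, j, ε1', ε2', hP', hj1, hj2, x', hx'⟩ :=
      hEXP s s' k0 f hT (by omega) X ε1 ε2 hP c
    have h1 := ih (s' + 1) (by omega) X' ε1' ε2' hP' (ex (fun i => j (y i)) x')
    rw [ex_eq, ex_eq] at h1
    simp only [hj1, hj2] at h1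
    rw [hx'] at h1
    have h2 := h1.1 hc
    obtain ⟨-, k1, k2, -, -, h3, -, h5, -, h7, -, h9⟩ := hP'
    obtain ⟨γ, e, hG⟩ := test hDFT hT (by omega : s' + 1 ≤ s) h5
    have hck : c ∈ k1 := cst_mem hG ((h7 _).2 ⟨x', hx'⟩)
    obtain ⟨c', -, hc'⟩ := (h9 x').1 ⟨c, hck, hx'⟩
    refine ⟨c', ?_⟩
    rw [hc'] at h2
    exact h2
  | @alg N ι G hG Φ h ih =>
    intro s' hs
    refine iff_of (Φ := fun y => ∃ w : K, G.map (MvPolynomial.eval y) ≠ 0 ∧
      (G.map (MvPolynomial.eval y)).eval w = 0 ∧ Φ (ext y w)) fun X _ ε1 ε2 hP y ht => ?_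
    obtain ⟨w, hw1, hw2, hw3⟩ := ht
    obtain ⟨G', hG1, hG2⟩ := exists_lift_G hP.1 hG
    have hx : ∃ x, ε1 x = w := by
      obtain ⟨-, k1, k2, -, -, h3, -, h5, -, h7, -⟩ := hP
      refine (h7 w).1 (alg_mem hRA2 hDFT hT (by omega : s' ≤ s) h5 ?_)
      refine isAlgebraic_iff'.2 ⟨_, fun n => ?_, hw1, hw2⟩
      rw [coeff_map]
      exact eval_mem ((kZ_mono h3).trans (kZ_le_fld k1 f)) (hG n)
        fun i => (h7 _).2 ⟨y i, rfl⟩
    obtain ⟨x, rfl⟩ := hx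
    refine ⟨ε2 x, ?_, ?_, ?_⟩
    · rw [hG1 y, Ne, Polynomial.map_eq_zero] at hw1
      rw [hG2 y, Ne, Polynomial.map_eq_zero]
      exact hw1
    · rw [hG1 y, eval_map_apply, map_eq_zero] at hw2
      rw [hG2 y, eval_map_apply, hw2, map_zero]
    · have h1 := ih s' hs X ε1 ε2 hP (ex y x)
      rw [ex_eq, ex_eq] at h1
      exact h1.1 hw3
  | @ell N ι A B hA hB Φ h ih =>
    intro s' hs
    have step : ∀ s1 : ℕ, s1 + 2 * N ≤ s → ∀ (X : Type) [Field X] (ε1 ε2 : X →+* K),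
        Par s1 k0 f ε1 ε2 → ∀ (y : ι → X) (a b : X),
        4 * (MvPolynomial.eval (fun i => ε1 (y i)) A) ^ 3 +
          27 * (MvPolynomial.eval (fun i => ε1 (y i)) B) ^ 2 ≠ 0 →
        (ε1 b) ^ 2 = (ε1 a) ^ 3 + MvPolynomial.eval (fun i => ε1 (y i)) A * ε1 a +
          MvPolynomial.eval (fun i => ε1 (y i)) B →
        Φ (ext (ext (fun i => ε1 (y i)) (ε1 a)) (ε1 b)) →
        ∃ u v : K, 4 * (MvPolynomial.eval (fun i => ε2 (y i)) A) ^ 3 +
          27 * (MvPolynomial.eval (fun i => ε2 (y i)) B) ^ 2 ≠ 0 ∧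
          v ^ 2 = u ^ 3 + MvPolynomial.eval (fun i => ε2 (y i)) A * u +
            MvPolynomial.eval (fun i => ε2 (y i)) B ∧
          Φ (ext (ext (fun i => ε2 (y i)) u) v) := by
      intro s1 hs1 X _ ε1 ε2 hP y a b h1 h2 h3
      obtain ⟨A', hA1, hA2⟩ := exists_lift_mv hP.1 hA
      obtain ⟨B', hB1, hB2⟩ := exists_lift_mv hP.1 hB
      have e1 : MvPolynomial.eval (fun i => ε1 (y i)) A = ε1 (MvPolynomial.eval y A') := by
        rw [← hA1, eval_lift_mv]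
      have e2 : MvPolynomial.eval (fun i => ε1 (y i)) B = ε1 (MvPolynomial.eval y B') := by
        rw [← hB1, eval_lift_mv]
      have e3 : MvPolynomial.eval (fun i => ε2 (y i)) A = ε2 (MvPolynomial.eval y A') := by
        rw [← hA2, eval_lift_mv]
      have e4 : MvPolynomial.eval (fun i => ε2 (y i)) B = ε2 (MvPolynomial.eval y B') := by
        rw [← hB2, eval_lift_mv]
      rw [e1, e2] at h1 h2
      rw [e3, e4]
      refine ⟨ε2 a, ε2 b, ?_, ?_, ?_⟩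
      · intro h0
        apply h1
        have h4 : 4 * (MvPolynomial.eval y A') ^ 3 + 27 * (MvPolynomial.eval y B') ^ 2 = 0 := by
          apply ε2.injective
          rw [map_zero, ← h0]
          simp only [map_add, map_mul, map_pow, map_ofNat]
        have h5 := congrArg ε1 h4
        simp only [map_add, map_mul, map_pow, map_ofNat, map_zero] at h5
        exact h5
      · have h4 : b ^ 2 = a ^ 3 + MvPolynomial.eval y A' * a + MvPolynomial.eval y B' := by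
          apply ε1.injective
          simp only [map_add, map_mul, map_pow]
          exact h2
        have h5 := congrArg ε2 h4
        simp only [map_add, map_mul, map_pow] at h5
        exact h5
      · have h4 := ih s1 hs1 X ε1 ε2 hP (ex (ex y a) b)
        rw [ex_eq, ex_eq, ex_eq, ex_eq] at h4
        exact h4.1 h3
    refine iff_of (Φ := fun y => ∃ u v : K,
      4 * (MvPolynomial.eval y A) ^ 3 + 27 * (MvPolynomial.eval y B) ^ 2 ≠ 0 ∧
      v ^ 2 = u ^ 3 + MvPolynomial.eval y A * u + MvPolynomial.eval y B ∧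
      Φ (ext (ext y u) v)) fun X _ ε1 ε2 hP y ht => ?_
    obtain ⟨u, v, hu1, hu2, hu3⟩ := ht
    have hcase : ((∃ a, ε1 a = u) ∧ ∃ b, ε1 b = v) ∨ ∃ (r : X) (u0 v0 : ℂ),
        u = (ε1 r) ^ 2 * cst u0 ∧ v = (ε1 r) ^ 3 * cst v0 := by
      obtain ⟨-, k1, k2, -, -, h3, -, h5, -, h7, -⟩ := hP
      have hy : ∀ {P : MvPolynomial ι K}, CoM (kZ k0) P →
          MvPolynomial.eval (fun i => ε1 (y i)) P ∈ fld k1 f := fun {P} hP =>
        eval_mem ((kZ_mono h3).trans (kZ_le_fld k1 f)) hP fun i => (h7 _).2 ⟨y i, rfl⟩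
      rcases hPT2 s k0 k1 f _ _ u v hT (hDFT.1 s' s k0 k1 (by omega) h5) (hy hA) (hy hB) hu1 hu2
        with ⟨h8, h9⟩ | ⟨r, α, β, u0, v0, hr, -, -, -, -, -, h8, h9⟩
      · exact Or.inl ⟨(h7 u).1 h8, (h7 v).1 h9⟩
      · obtain ⟨r', hr'⟩ := (h7 r).1 hr
        exact Or.inr ⟨r', u0, v0, by rw [hr', h8], by rw [hr', h9]⟩
    rcases hcase with ⟨⟨a, rfl⟩, b, rfl⟩ | ⟨r, u0, v0, hu, hv⟩
    · exact step s' (by omega) X ε1 ε2 hP y a b hu1 hu2 hu3
    · obtain ⟨X', _, j, ε1', ε2', hP', hj1, hj2, x', hx'⟩ :=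
        hEXP s s' k0 f hT (by omega) X ε1 ε2 hP u0
      obtain ⟨X'', _, j', ε1'', ε2'', hP'', hj1', hj2', x'', hx''⟩ :=
        hEXP s (s' + 1) k0 f hT (by omega) X' ε1' ε2' hP' v0
      have g1 : ε1'' (j' (j r) ^ 2 * j' x') = u := by
        rw [map_mul, map_pow, hj1', hj1, hj1', hx', hu]
      have g2 : ε1'' (j' (j r) ^ 3 * x'') = v := by
        rw [map_mul, map_pow, hj1', hj1, hx'', hv]
      have h4 := step (s' + 1 + 1) (by omega) X'' ε1'' ε2'' hP'' (fun i => j' (j (y i)))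
        (j' (j r) ^ 2 * j' x') (j' (j r) ^ 3 * x'')
      rw [g1, g2] at h4
      simp only [hj1', hj1, hj2', hj2] at h4
      exact h4 hu1 hu2 hu3
  | @fer N ι m n hmn hR C hC Φ h ih =>
    intro s' hs
    have step : ∀ s1 : ℕ, s1 + 2 * N ≤ s → ∀ (X : Type) [Field X] (ε1 ε2 : X →+* K),
        Par s1 k0 f ε1 ε2 → ∀ (y : ι → X) (a b : X),
        MvPolynomial.eval (fun i => ε1 (y i)) C ≠ 0 →
        (ε1 b) ^ m = (ε1 a) ^ n + MvPolynomial.eval (fun i => ε1 (y i)) C →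
        Φ (ext (ext (fun i => ε1 (y i)) (ε1 a)) (ε1 b)) →
        ∃ u v : K, MvPolynomial.eval (fun i => ε2 (y i)) C ≠ 0 ∧
          v ^ m = u ^ n + MvPolynomial.eval (fun i => ε2 (y i)) C ∧
          Φ (ext (ext (fun i => ε2 (y i)) u) v) := by
      intro s1 hs1 X _ ε1 ε2 hP y a b h1 h2 h3
      obtain ⟨C', hC1, hC2⟩ := exists_lift_mv hP.1 hC
      have e1 : MvPolynomial.eval (fun i => ε1 (y i)) C = ε1 (MvPolynomial.eval y C') := by
        rw [← hC1, eval_lift_mv]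
      have e3 : MvPolynomial.eval (fun i => ε2 (y i)) C = ε2 (MvPolynomial.eval y C') := by
        rw [← hC2, eval_lift_mv]
      rw [e1] at h1 h2
      rw [e3]
      refine ⟨ε2 a, ε2 b, ?_, ?_, ?_⟩
      · rw [Ne, map_eq_zero] at h1 ⊢
        exact h1
      · have h4 : b ^ m = a ^ n + MvPolynomial.eval y C' := by
          apply ε1.injective
          simp only [map_add, map_pow]
          exact h2
        have h5 := congrArg ε2 h4
        simp only [map_add, map_pow] at h5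
        exact h5
      · have h4 := ih s1 hs1 X ε1 ε2 hP (ex (ex y a) b)
        rw [ex_eq, ex_eq, ex_eq, ex_eq] at h4
        exact h4.1 h3
    refine iff_of (Φ := fun y => ∃ u v : K, MvPolynomial.eval y C ≠ 0 ∧
      v ^ m = u ^ n + MvPolynomial.eval y C ∧ Φ (ext (ext y u) v)) fun X _ ε1 ε2 hP y ht => ?_
    obtain ⟨u, v, hu1, hu2, hu3⟩ := ht
    have hcase : ((∃ a, ε1 a = u) ∧ ∃ b, ε1 b = v) ∨ ∃ (ρ : X) (u0 v0 : ℂ),
        u = (ε1 ρ) ^ (m.lcm n / n) * cst u0 ∧ v = (ε1 ρ) ^ (m.lcm n / m) * cst v0 := by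
      obtain ⟨-, k1, k2, -, -, h3, -, h5, -, h7, -⟩ := hP
      have hy : ∀ {P : MvPolynomial ι K}, CoM (kZ k0) P →
          MvPolynomial.eval (fun i => ε1 (y i)) P ∈ fld k1 f := fun {P} hP =>
        eval_mem ((kZ_mono h3).trans (kZ_le_fld k1 f)) hP fun i => (h7 _).2 ⟨y i, rfl⟩
      rcases hPTF s r k0 k1 f _ u v m n hTR (hDFT.1 s' s k0 k1 (by omega) h5) hmn hR (hy hC)
        hu1 hu2 with ⟨h8, h9⟩ | ⟨ρ, β, u0, v0, hr, -, -, -, h8, h9⟩
      · exact Or.inl ⟨(h7 u).1 h8, (h7 v).1 h9⟩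
      · obtain ⟨r', hr'⟩ := (h7 ρ).1 hr
        exact Or.inr ⟨r', u0, v0, by rw [hr', h8], by rw [hr', h9]⟩
    rcases hcase with ⟨⟨a, rfl⟩, b, rfl⟩ | ⟨ρ, u0, v0, hu, hv⟩
    · exact step s' (by omega) X ε1 ε2 hP y a b hu1 hu2 hu3
    · obtain ⟨X', _, j, ε1', ε2', hP', hj1, hj2, x', hx'⟩ :=
        hEXP s s' k0 f hT (by omega) X ε1 ε2 hP u0
      obtain ⟨X'', _, j', ε1'', ε2'', hP'', hj1', hj2', x'', hx''⟩ :=
        hEXP s (s' + 1) k0 f hT (by omega) X' ε1' ε2' hP' v0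
      have g1 : ε1'' (j' (j ρ) ^ (m.lcm n / n) * j' x') = u := by
        rw [map_mul, map_pow, hj1', hj1, hj1', hx', hu]
      have g2 : ε1'' (j' (j ρ) ^ (m.lcm n / m) * x'') = v := by
        rw [map_mul, map_pow, hj1', hj1, hx'', hv]
      have h4 := step (s' + 1 + 1) (by omega) X'' ε1'' ε2'' hP'' (fun i => j' (j (y i)))
        (j' (j ρ) ^ (m.lcm n / n) * j' x') (j' (j ρ) ^ (m.lcm n / m) * x'')
      rw [g1, g2] at h4
      simp only [hj1', hj1, hj2', hj2] at h4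
      exact h4 hu1 hu2 hu3

end INR_

theorem inr_proof (_hTR2 : Stmt_TR2) (hRA2 : Stmt_RA2) (hPT2 : Stmt_PT2) (hPTF : Stmt_PTF)
    (hDFT : Stmt_DFT) (hEXP : Stmt_EXP) (hQTI : Stmt_QTI) (hQNI : Stmt_QNI) : Stmt_INR := by
  intro s r k0 f hk0 hT N ι Φ hΦ s' hs X _ ε1 ε2 hP y
  exact INR_.main hQTI hRA2 hPT2 hPTF hDFT hQNI hEXP hk0 hT hΦ s' hs X ε1 ε2 hP y

end

end EVW
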