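import Pool.Agent.EVW.Api

/-!
# Squad EVW (MP_3e5173_lc): module LOF, the local lemma for the curves `vᵐ = uⁿ + b`
-/

set_option autoImplicit false

namespace EVW

open Polynomial EVR EVS

namespace LOF_

variable {w : K → ℤ} (hm : ∀ x y : K, x ≠ 0 → y ≠ 0 → w (x * y) = w x + w y)
  (ha : ∀ x y : K, x ≠ 0 → y ≠ 0 → x + y ≠ 0 → min (w x) (w y) ≤ w (x + y))

include hm

lemma w_one : w 1 = 0 := by
  have := hm 1 1 one_ne_zero one_ne_zero
  rw [one_mul] at this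
  omega

lemma w_neg_one : w (-1) = 0 := by
  have h := hm (-1) (-1) (by simp) (by simp)
  rw [neg_mul_neg, one_mul, w_one hm] at h
  omega

lemma w_neg {x : K} (hx : x ≠ 0) : w (-x) = w x := by
  have h := hm (-1) x (by simp) hx
  rw [neg_one_mul, w_neg_one hm] at h
  omega

lemma w_pow {x : K} (hx : x ≠ 0) (N : ℕ) : w (x ^ N) = N * w x := by
  induction N with
  | zero => simp [w_one hm]
  | succ N ih =>
    rw [pow_succ, hm _ _ (pow_ne_zero N hx) hx, ih]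
    push_cast
    ring

omit hm in
lemma der_pow (E : Derivation ℤ K K) (x : K) (N : ℕ) :
    E (x ^ (N + 1)) = ((N + 1 : ℕ) : K) * x ^ N * E x := by
  rw [Derivation.leibniz_pow]
  simp only [nsmul_eq_mul, smul_eq_mul, Nat.add_sub_cancel]
  ring

end LOF_

open LOF_ in
theorem lof_proof : Stmt_LOF := by
  intro w E b u v m n i j hm ha hN hE hmn hij hEb hb hu hv heq hEu
  have hm0 : m ≠ 0 := by
    rintro rfl
    omega
  have hn0 : n ≠ 0 := by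
    rintro rfl
    simp at hmn
  obtain ⟨m1, rfl⟩ := Nat.exists_eq_succ_of_ne_zero hm0
  obtain ⟨n1, rfl⟩ := Nat.exists_eq_succ_of_ne_zero hn0
  simp only [Nat.succ_eq_add_one] at *
  have hmK : ((m1 + 1 : ℕ) : K) ≠ 0 := Nat.cast_ne_zero.2 hm0
  have hnK : ((n1 + 1 : ℕ) : K) ≠ 0 := Nat.cast_ne_zero.2 hn0
  -- the derivative of the equation
  have hD : ((m1 + 1 : ℕ) : K) * v ^ m1 * E v = ((n1 + 1 : ℕ) : K) * u ^ n1 * E u := by
    have h := congrArg E heq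
    rw [map_add, hEb, add_zero, der_pow, der_pow] at h
    exact h
  have hv1 : ((m1 + 1 : ℕ) : K) * v ^ m1 ≠ 0 := mul_ne_zero hmK (pow_ne_zero _ hv)
  have hu1 : ((n1 + 1 : ℕ) : K) * u ^ n1 ≠ 0 := mul_ne_zero hnK (pow_ne_zero _ hu)
  have hEv : E v ≠ 0 := by
    intro h
    rw [h, mul_zero] at hD
    exact mul_ne_zero hu1 hEu hD.symm
  have k1 : (m1 : ℤ) * w v + w (E v) = (n1 : ℤ) * w u + w (E u) := by
    have h := congrArg w hD
    rw [hm _ _ hv1 hEv, hm _ _ hmK (pow_ne_zero _ hv), hN _ hm0, w_pow hm hv,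
      hm _ _ hu1 hEu, hm _ _ hnK (pow_ne_zero _ hu), hN _ hn0, w_pow hm hu] at h
    linarith
  have k2 := hE v hEv
  have k3 := hE u hEu
  -- the value of `b`
  have k4 : min (((m1 + 1 : ℕ) : ℤ) * w v) (((n1 + 1 : ℕ) : ℤ) * w u) ≤ w b := by
    have e : b = v ^ (m1 + 1) + -(u ^ (n1 + 1)) := by rw [heq]; ring
    have h := ha (v ^ (m1 + 1)) (-(u ^ (n1 + 1))) (pow_ne_zero _ hv)
      (neg_ne_zero.2 (pow_ne_zero _ hu)) (by rw [← e]; exact hb)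
    rw [← e, w_neg hm (pow_ne_zero _ hu), w_pow hm hv, w_pow hm hu] at h
    exact h
  -- the numbers
  have d1 : (m1 + 1) * ((m1 + 1).lcm (n1 + 1) / (m1 + 1)) = (m1 + 1).lcm (n1 + 1) :=
    Nat.mul_div_cancel' (Nat.dvd_lcm_left _ _)
  have d2 : (n1 + 1) * ((m1 + 1).lcm (n1 + 1) / (n1 + 1)) = (m1 + 1).lcm (n1 + 1) :=
    Nat.mul_div_cancel' (Nat.dvd_lcm_right _ _)
  generalize (m1 + 1).lcm (n1 + 1) = L at *
  generalize L / (m1 + 1) = m' at *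
  generalize L / (n1 + 1) = n' at *
  generalize w v = μ at *
  generalize w u = ν at *
  generalize w (E u) = x at *
  generalize w (E v) = y at *
  generalize w b = g at *
  have D1 : ((m1 : ℤ) + 1) * (m' : ℤ) = (L : ℤ) := by exact_mod_cast d1
  have D2 : ((n1 : ℤ) + 1) * (n' : ℤ) = (L : ℤ) := by exact_mod_cast d2
  have D3 : ((j : ℤ) + 1) * (m' : ℤ) + ((i : ℤ) + 1) * (n' : ℤ) + 1 = (L : ℤ) := by
    exact_mod_cast hij
  have hL0 : (0 : ℤ) ≤ (L : ℤ) := Int.natCast_nonneg _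
  have ha0 : (0 : ℤ) ≤ ((j : ℤ) + 1) * (m' : ℤ) := by positivity
  have hb0 : (0 : ℤ) ≤ ((i : ℤ) + 1) * (n' : ℤ) := by positivity
  push_cast at k4 ⊢
  rcases le_total (((m1 : ℤ) + 1) * μ) (((n1 : ℤ) + 1) * ν) with h | h
  · rw [min_eq_left h] at k4
    have hS : ((m1 : ℤ) + 1) * μ - ((j : ℤ) + 1) * μ - (i : ℤ) * ν - x ≤
        ((m1 : ℤ) + 1) * μ - ((j : ℤ) + 1) * μ - ((i : ℤ) + 1) * ν := by linarith
    have h1 := mul_le_mul_of_nonneg_left hS hL0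
    have h2 : (L : ℤ) * (((m1 : ℤ) + 1) * μ - ((j : ℤ) + 1) * μ - ((i : ℤ) + 1) * ν) =
        (((j : ℤ) + 1) * (m' : ℤ) + ((i : ℤ) + 1) * (n' : ℤ) + 1) * (((m1 : ℤ) + 1) * μ) -
        ((j : ℤ) + 1) * (m' : ℤ) * (((m1 : ℤ) + 1) * μ) -
        ((i : ℤ) + 1) * (n' : ℤ) * (((n1 : ℤ) + 1) * ν) := by
      rw [D3]
      linear_combination (((j : ℤ) + 1) * μ) * D1 + (((i : ℤ) + 1) * ν) * D2
    have h3 := mul_le_mul_of_nonneg_left h hb0
    linarith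
  · rw [min_eq_right h] at k4
    have hS : ((m1 : ℤ) + 1) * μ - ((j : ℤ) + 1) * μ - (i : ℤ) * ν - x ≤
        ((n1 : ℤ) + 1) * ν - ((j : ℤ) + 1) * μ - ((i : ℤ) + 1) * ν := by linarith
    have h1 := mul_le_mul_of_nonneg_left hS hL0
    have h2 : (L : ℤ) * (((n1 : ℤ) + 1) * ν - ((j : ℤ) + 1) * μ - ((i : ℤ) + 1) * ν) =
        (((j : ℤ) + 1) * (m' : ℤ) + ((i : ℤ) + 1) * (n' : ℤ) + 1) * (((n1 : ℤ) + 1) * ν) -
        ((j : ℤ) + 1) * (m' : ℤ) * (((m1 : ℤ) + 1) * μ) -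
        ((i : ℤ) + 1) * (n' : ℤ) * (((n1 : ℤ) + 1) * ν) := by
      rw [D3]
      linear_combination (((j : ℤ) + 1) * μ) * D1 + (((i : ℤ) + 1) * ν) * D2
    have h3 := mul_le_mul_of_nonneg_left h ha0
    linarith

end EVW
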