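import Pool.Agent.EVW.Api

/-!
# Squad EVW (MP_3e5173_lc), module MIE: minimal models over `k(Z)(f)`
-/

set_option autoImplicit false

namespace EVW

open Polynomial EVR EVS

namespace MIE_

/-- in a factorial ring every nonzero element is `Lᵉ B'` with `B'` free of `e`-th powers -/
theorem exists_pfr {R : Type} [CommRing R] [IsDomain R] [UniqueFactorizationMonoid R] (e : ℕ)
    (he : 1 ≤ e) (x : R) (hx : x ≠ 0) : ∃ L B : R, L ≠ 0 ∧ Pfr e B ∧ x = L ^ e * B := by
  induction x using (wellFounded_dvdNotUnit (α := R)).induction with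
  | _ x ih =>
    by_cases h : Pfr e x
    · exact ⟨1, x, one_ne_zero, h, by rw [one_pow, one_mul]⟩
    · unfold Pfr at h
      push Not at h
      obtain ⟨p, hp, y, hy⟩ := h
      have hy0 : y ≠ 0 := by
        rintro rfl
        rw [mul_zero] at hy
        exact hx hy
      obtain ⟨L, B, hL, hB, hyB⟩ := ih y ⟨hy0, p ^ e, fun hu => hp.not_isUnit
        ((isUnit_pow_iff (by omega)).1 hu), by rw [hy, mul_comm]⟩ hy0
      refine ⟨p * L, B, mul_ne_zero hp.ne_zero hL, hB, ?_⟩
      rw [mul_pow, mul_assoc, ← hyB, hy]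

end MIE_

open MIE_ in
theorem mie_proof : Stmt_MIE := by
  intro k f e B hTr he hB hne
  obtain ⟨R, S, hS, hBe⟩ := mem_fld_iff.1 hB
  obtain ⟨e, rfl⟩ : ∃ e', e = e' + 1 := ⟨e - 1, by omega⟩
  have e2 : B * pz (bev k f S) ^ (e + 1) = pz (bev k f (R * S ^ e)) := by
    rw [hBe, map_mul, map_mul, map_pow, map_pow, pow_succ']
    rw [← mul_assoc, div_mul_cancel₀ _ hS]
  have hne2 : R * S ^ e ≠ 0 := by
    intro h0
    rw [h0, map_zero, map_zero] at e2
    rcases mul_eq_zero.1 e2 with h1 | h1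
    · exact hne h1
    · exact pow_ne_zero _ hS h1
  obtain ⟨L, B', hL, hM, hLB⟩ := exists_pfr (e + 1) (by omega) _ hne2
  have hL0 : pz (bev k f L) ≠ 0 := pz_ne_zero.2 (bev_ne_zero hTr hL)
  refine ⟨pz (bev k f L) / pz (bev k f S), B',
    div_mem (pz_bev_mem k f L) (pz_bev_mem k f S), div_ne_zero hL0 hS, hM, ?_⟩
  rw [div_pow, div_mul_eq_mul_div, eq_div_iff (pow_ne_zero _ hS), e2, hLB, map_mul, map_mul,
    map_pow, map_pow]

end EVW
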