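import Pool.Agent.EVW.Api
import Pool.Agent.EVS.MTG

/-!
Squad EVW, module MTF: solutions of `vᵐ = uⁿ + b` with `b` killed by `E`.
-/

set_option autoImplicit false

namespace EVW

open Polynomial EVR EVS

namespace MTF_

theorem w_pow {w : K → ℤ} (hw : ∀ x y : K, x ≠ 0 → y ≠ 0 → w (x * y) = w x + w y) {x : K}
    (hx : x ≠ 0) (k : ℕ) : w (x ^ k) = k * w x := by
  induction k with
  | zero =>
    have h1 := hw 1 1 one_ne_zero one_ne_zero
    rw [mul_one] at h1
    rw [pow_zero]
    push_cast
    linarith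
  | succ k ih =>
    rw [pow_succ, hw _ _ (pow_ne_zero k hx) hx, ih]
    push_cast
    ring

theorem natCast_eq (N : ℕ) : (N : K) = pz (C (N : ℂ)) := by
  rw [pz_C, map_natCast]

/-- the derivative of the equation -/
theorem der (E : Derivation ℤ K K) {b : K} (hb : E b = 0) {u v : K} {m n : ℕ}
    (heq : v ^ m = u ^ n + b) :
    (m : K) * v ^ (m - 1) * E v = (n : K) * u ^ (n - 1) * E u := by
  have h := congrArg E heq
  rw [map_add, hb, add_zero, E.leibniz_pow, E.leibniz_pow, smul_eq_mul, smul_eq_mul,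
    nsmul_eq_mul, nsmul_eq_mul, ← mul_assoc, ← mul_assoc] at h
  exact h

/-- poles: if `ord u < 0` and `b` is a unit then `m ord v = n ord u` -/
theorem pole {w : K → ℤ}
    (ha : ∀ x y : K, x ≠ 0 → y ≠ 0 → x + y ≠ 0 → min (w x) (w y) ≤ w (x + y))
    (hneg : ∀ x : K, x ≠ 0 → w (-x) = w x) {x y z : K} (hx : x ≠ 0) (hy : y ≠ 0) (hz : z ≠ 0)
    (h : x = y + z) (hlt : w y < w z) : w x = w y := by
  have h1 := ha y z hy hz (by rw [← h]; exact hx)
  rw [← h] at h1
  have h2 : y = x + -z := by rw [h]; ring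
  have h3 := ha x (-z) hx (neg_ne_zero.2 hz) (by rw [← h2]; exact hy)
  rw [← h2, hneg z hz] at h3
  have h4 : min (w y) (w z) = w y := min_eq_left hlt.le
  rw [h4] at h1
  rcases min_le_iff.1 h3 with h5 | h5
  · exact le_antisymm h5 h1
  · exact absurd h5 (not_le.2 hlt)

/-- the arithmetic at a pole -/
theorem arith {m n i j : ℕ} (hm : 0 < m) (hn : 0 < n)
    (hij : (j + 1) * (m.lcm n / m) + (i + 1) * (m.lcm n / n) + 1 = m.lcm n)
    {ou ov oE : ℤ} (hou : ou < 0) (hov : (m : ℤ) * ov = n * ou) (hoE : ou - 1 ≤ oE) :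
    0 ≤ i * ou + (j + 1) * ov + oE - m * ov := by
  set L := m.lcm n with hL
  have hL0 : 0 < L := Nat.lcm_pos hm hn
  obtain ⟨b', hb'⟩ : m ∣ L := Nat.dvd_lcm_left m n
  obtain ⟨a', ha'⟩ : n ∣ L := Nat.dvd_lcm_right m n
  have e1 : L / m = b' := by rw [hb']; exact Nat.mul_div_cancel_left b' hm
  have e2 : L / n = a' := by rw [ha']; exact Nat.mul_div_cancel_left a' hn
  rw [e1, e2] at hij
  have hij' : ((j : ℤ) + 1) * b' + (i + 1) * a' + 1 = L := by exact_mod_cast hij
  have hb1 : (L : ℤ) = m * b' := by exact_mod_cast hb'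
  have ha1 : (L : ℤ) = n * a' := by exact_mod_cast ha'
  have hm' : (0 : ℤ) < m := by exact_mod_cast hm
  have hn' : (0 : ℤ) < n := by exact_mod_cast hn
  have hLz : (0 : ℤ) < L := by exact_mod_cast hL0
  -- t = - m ov = - n ou
  obtain ⟨t, ht⟩ : ∃ t : ℕ, (t : ℤ) = -(n * ou) :=
    ⟨(-(n * ou)).toNat, Int.toNat_of_nonneg (by nlinarith)⟩
  have ht0 : 0 < t := by
    have : (0 : ℤ) < t := by rw [ht]; nlinarith
    exact_mod_cast this
  have hmt : m ∣ t := by
    have : (m : ℤ) ∣ t := ⟨-ov, by rw [ht, ← hov]; ring⟩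
    exact_mod_cast this
  have hnt : n ∣ t := by
    have : (n : ℤ) ∣ t := ⟨-ou, by rw [ht]; ring⟩
    exact_mod_cast this
  have hLt : L ≤ t := Nat.le_of_dvd ht0 (Nat.lcm_dvd hmt hnt)
  have hLt' : (L : ℤ) ≤ t := by exact_mod_cast hLt
  have hu : (L : ℤ) * ou = -(a' * t) := by rw [ha1, ht]; ring
  have hv : (L : ℤ) * ov = -(b' * t) := by
    rw [hb1, ht, ← hov]
    ring
  have key : (L : ℤ) * (i * ou + (j + 1) * ov + oE - m * ov) ≥ t - L := by
    have h1 : (L : ℤ) * (ou - 1) ≤ L * oE := mul_le_mul_of_nonneg_left hoE hLz.le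
    have h2 : (L : ℤ) * (i * ou + (j + 1) * ov + oE - m * ov) =
        i * (L * ou) + (j + 1) * (L * ov) + L * oE - L * (m * ov) := by ring
    have h3 : (m : ℤ) * ov = -t := by rw [hov, ht]; ring
    rw [h2, h3, hu, hv]
    have h4 : (L : ℤ) * (ou - 1) = -(a' * t) - L := by rw [mul_sub, hu, mul_one]
    rw [h4] at h1
    have h5 : (i : ℤ) * -(a' * t) + (j + 1) * -(b' * t) + (-(a' * t) - L) - L * -t =
        t * (L - ((j + 1) * b' + (i + 1) * a')) - L := by ring
    have h6 : (L : ℤ) - ((j + 1) * b' + (i + 1) * a') = 1 := by linarith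
    rw [h6, mul_one] at h5
    linarith
  by_contra hneg
  push Not at hneg
  have : (L : ℤ) * (i * ou + (j + 1) * ov + oE - m * ov) < 0 := mul_neg_of_pos_of_neg hLz hneg
  linarith

end MTF_

open MTF_ in
theorem mtf_proof (hORD : Stmt_ORD) (hODR : Stmt_ODR) (hNUM : Stmt_NUM) (hLOF : Stmt_LOF) :
    Stmt_MTF := by
  intro E l b L u v m n hmn hE hb hb0 hL0 hmin hdeg heq
  obtain ⟨i, j, hij⟩ := hNUM m n hmn
  have hm : 0 < m := by
    rcases Nat.eq_zero_or_pos m with rfl | h'
    · omega
    · exact h'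
  have hn : 0 < n := by
    rcases Nat.eq_zero_or_pos n with rfl | h'
    · simp at hmn
    · exact h'
  have hmK : (m : K) ≠ 0 := Nat.cast_ne_zero.2 hm.ne'
  have hnK : (n : K) ≠ 0 := Nat.cast_ne_zero.2 hn.ne'
  obtain ⟨omul, oadd, opz, opoly⟩ := hORD
  have hE' : ∀ p : ℂ[X], ∃ q : ℂ[X], E (pz p) = pz q := fun p => by
    obtain ⟨q, hq, _⟩ := hE p
    exact ⟨q, hq⟩
  have hbK : pz b ≠ 0 := pz_ne_zero.2 hb0
  have hd := der E hb heq
  by_cases hv : v = 0
  · subst hv
    refine ⟨?_, map_zero E⟩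
    rw [map_zero, mul_zero] at hd
    have hu : u ≠ 0 := by
      rintro rfl
      rw [zero_pow hm.ne', zero_pow hn.ne', zero_add] at heq
      exact hbK heq.symm
    rcases mul_eq_zero.1 hd.symm with h | h
    · exact absurd h (mul_ne_zero hnK (pow_ne_zero _ hu))
    · exact h
  have hvK : (m : K) * v ^ (m - 1) ≠ 0 := mul_ne_zero hmK (pow_ne_zero _ hv)
  suffices hu : E u = 0 by
    refine ⟨hu, ?_⟩
    rw [hu, mul_zero] at hd
    rcases mul_eq_zero.1 hd with h | h
    · exact absurd h hvK
    · exact h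
  by_contra hu
  have hu0 : u ≠ 0 := by
    rintro rfl
    exact hu (map_zero E)
  have huK : (n : K) * u ^ (n - 1) ≠ 0 := mul_ne_zero hnK (pow_ne_zero _ hu0)
  have hEv : E v ≠ 0 := by
    intro h
    rw [h, mul_zero] at hd
    exact mul_ne_zero huK hu hd.symm
  have hvm : v ^ m ≠ 0 := pow_ne_zero _ hv
  have hun : u ^ n ≠ 0 := pow_ne_zero _ hu0
  set th : K := u ^ i * v ^ (j + 1) * E u / v ^ m with hth
  have hnum0 : u ^ i * v ^ (j + 1) * E u ≠ 0 :=
    mul_ne_zero (mul_ne_zero (pow_ne_zero _ hu0) (pow_ne_zero _ hv)) hu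
  have hth0 : th ≠ 0 := div_ne_zero hnum0 hvm
  have hthv : th * v ^ m = u ^ i * v ^ (j + 1) * E u := div_mul_cancel₀ _ hvm
  -- the order of th
  have hword : ∀ w : K → ℤ, (∀ x y : K, x ≠ 0 → y ≠ 0 → w (x * y) = w x + w y) →
      w th = i * w u + (j + 1) * w v + w (E u) - m * w v := by
    intro w hw
    have h1 := congrArg w hthv
    rw [hw _ _ hth0 hvm, hw _ _ (mul_ne_zero (pow_ne_zero _ hu0) (pow_ne_zero _ hv)) hu,
      hw _ _ (pow_ne_zero _ hu0) (pow_ne_zero _ hv), w_pow hw hu0, w_pow hw hv,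
      w_pow hw hv] at h1
    push_cast at h1
    linarith
  have wnat : ∀ (c : ℂ) (N : ℕ), N ≠ 0 → ord c (N : K) = 0 := by
    intro c N hN
    have h0 : (C (N : ℂ) : ℂ[X]) ≠ 0 := by
      rw [Ne, C_eq_zero]
      exact Nat.cast_ne_zero.2 hN
    rw [natCast_eq, opz c _ h0, rootMultiplicity_C]
    simp
  have hneg : ∀ (c : ℂ) (x : K), x ≠ 0 → ord c (-x) = ord c x := by
    intro c x hx
    have e : -x = pz (C (-1)) * x := by
      rw [pz_C]
      simp
    have h0 : (C (-1) : ℂ[X]) ≠ 0 := by simp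
    rw [e, omul c _ _ (pz_ne_zero.2 h0) hx, opz c _ h0, rootMultiplicity_C]
    simp
  have hreg : ∀ c : ℂ, 0 ≤ (L.rootMultiplicity c : ℤ) + ord c th := by
    intro c
    have hLm : (0 : ℤ) ≤ (L.rootMultiplicity c : ℤ) := by positivity
    have hwt := hword (ord c) (omul c)
    by_cases hp : ∃ p : ℂ[X], p ≠ 0 ∧ p.eval c = 0 ∧ E (pz p) = 0
    · have hL := hLOF (ord c) E (pz b) u v m n i j (omul c) (oadd c) (wnat c)
        (fun y hy => (hODR E hE' c y hy).2.2 hp) hmn hij hb hbK hu0 hv heq hu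
      by_contra hcon
      push Not at hcon
      have e1 : (m : ℤ) * ord c v - (j + 1) * ord c v - i * ord c u - ord c (E u) =
          -ord c th := by
        rw [hwt]
        ring
      rw [e1, opz c b hb0] at hL
      obtain ⟨S, hS⟩ : ∃ S : ℕ, (S : ℤ) = -ord c th :=
        ⟨(-ord c th).toNat, Int.toNat_of_nonneg (by linarith)⟩
      rw [← hS] at hL
      have hdv := hmin c S (by
        rw [← le_rootMultiplicity_iff hb0]
        exact_mod_cast hL)
      rw [← le_rootMultiplicity_iff hL0] at hdv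
      have hdv' : (S : ℤ) ≤ (L.rootMultiplicity c : ℤ) := by exact_mod_cast hdv
      linarith
    · push Not at hp
      have hbc : b.eval c ≠ 0 := fun h0 => hp b hb0 h0 hb
      have hob : ord c (pz b) = 0 := by
        rw [opz c b hb0, rootMultiplicity_eq_zero_iff.2]
        · simp
        · intro h
          exact absurd h hbc
      have hopu : ord c (u ^ n) = n * ord c u := w_pow (omul c) hu0 n
      have hopv : ord c (v ^ m) = m * ord c v := w_pow (omul c) hv m
      have hm' : (0 : ℤ) < m := by exact_mod_cast hm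
      have hn' : (0 : ℤ) < n := by exact_mod_cast hn
      suffices h0 : 0 ≤ ord c th by linarith
      rw [hwt]
      by_cases hou : ord c u < 0
      · have h1 : ord c (v ^ m) = ord c (u ^ n) := by
          refine pole (oadd c) (hneg c) hvm hun hbK heq ?_
          rw [hopu, hob]
          exact mul_neg_of_pos_of_neg hn' hou
        rw [hopu, hopv] at h1
        have h2 := (hODR E hE' c u hu).2.1
        exact arith hm hn hij hou h1 h2
      · push Not at hou
        have hopun : 0 ≤ ord c (u ^ n) := by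
          rw [hopu]
          positivity
        have hov : 0 ≤ ord c v := by
          have h1 := oadd c (u ^ n) (pz b) hun hbK (by rw [← heq]; exact hvm)
          rw [← heq, hob, min_eq_right hopun, hopv] at h1
          by_contra hcon
          push Not at hcon
          have := mul_neg_of_pos_of_neg hm' hcon
          linarith
        have hoEu := (hODR E hE' c u hu).1 hou
        have hoEv := (hODR E hE' c v hEv).1 hov
        have hi : (0 : ℤ) ≤ i := by positivity
        have hj : (0 : ℤ) ≤ j := by positivity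
        have i1 : (0 : ℤ) ≤ i * ord c u := mul_nonneg hi hou
        have j1 : (0 : ℤ) ≤ j * ord c v := mul_nonneg hj hov
        by_cases hv0 : ord c v = 0
        · rw [hv0]
          linarith
        · have hvp : 0 < ord c v := lt_of_le_of_ne hov (Ne.symm hv0)
          have hu00 : ord c u = 0 := by
            by_contra hne
            have hup : 0 < ord c u := lt_of_le_of_ne hou (Ne.symm hne)
            have h1 : pz b = v ^ m + -(u ^ n) := by rw [heq]; ring
            have h2 := oadd c (v ^ m) (-(u ^ n)) hvm (neg_ne_zero.2 hun) (by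
              rw [← h1]; exact hbK)
            rw [← h1, hneg c _ hun, hob, hopu, hopv] at h2
            have h3 : 0 < (n : ℤ) * ord c u := mul_pos hn' hup
            have h4 : 0 < (m : ℤ) * ord c v := mul_pos hm' hvp
            exact absurd (lt_min h4 h3) (not_lt.2 h2)
          have h1 := congrArg (ord c) hd
          rw [omul c _ _ hvK hEv, omul c _ _ huK hu, omul c _ _ hmK (pow_ne_zero _ hv),
            omul c _ _ hnK (pow_ne_zero _ hu0), wnat c m hm.ne', wnat c n hn.ne',
            w_pow (omul c) hv, w_pow (omul c) hu0, hu00] at h1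
          rw [hu00]
          have h2 : ((m - 1 : ℕ) : ℤ) = m - 1 := by
            rw [Nat.cast_sub (by omega)]
            simp
          rw [h2] at h1
          linarith
  have hLz : pz L ≠ 0 := pz_ne_zero.2 hL0
  obtain ⟨t, ht⟩ := opoly (pz L * th) (mul_ne_zero hLz hth0) (fun c => by
    rw [omul c _ _ hLz hth0, opz c L hL0]
    exact hreg c)
  have htd : (L.natDegree : ℤ) + th.intDegree = (t.natDegree : ℤ) := by
    have h1 := congrArg RatFunc.intDegree ht
    rw [RatFunc.intDegree_mul hLz hth0, RatFunc.intDegree_polynomial,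
      RatFunc.intDegree_polynomial] at h1
    exact h1
  -- at infinity
  obtain ⟨s, hs0, hsdeg⟩ := EVS.MTG_.exists_deg l
  have wE : ∀ y : K, (s • E) y = s * E y := fun y => rfl
  have wmul : ∀ x y : K, x ≠ 0 → y ≠ 0 → -(x * y).intDegree = -x.intDegree + -y.intDegree := by
    intro x y hx hy
    rw [RatFunc.intDegree_mul hx hy]
    ring
  have hL := hLOF (fun y => -(y.intDegree)) (s • E) (pz b) u v m n i j wmul
    (fun x y hx hy hxy => by
      show min (-x.intDegree) (-y.intDegree) ≤ -(x + y).intDegree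
      have := RatFunc.intDegree_add_le hy hxy
      rw [min_neg_neg]
      linarith)
    (fun N hN => by
      show -(N : K).intDegree = 0
      rw [natCast_eq, RatFunc.intDegree_polynomial, natDegree_C]
      simp)
    (fun y hy => by
      rw [wE] at hy
      show -y.intDegree ≤ -((s • E) y).intDegree
      have hy' : E y ≠ 0 := right_ne_zero_of_mul hy
      rw [wE, RatFunc.intDegree_mul hs0 hy', hsdeg]
      have := EVS.MTG_.idr E l hE y hy'
      linarith)
    hmn hij (by rw [wE, hb, mul_zero]) hbK hu0 hv heq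
    (by rw [wE]; exact mul_ne_zero hs0 hu)
  have hwt := hword (fun y => -(y.intDegree)) wmul
  have e1 : (m : ℤ) * -v.intDegree - (j + 1) * -v.intDegree - i * -u.intDegree -
      -((s • E) u).intDegree = th.intDegree - l := by
    rw [wE, RatFunc.intDegree_mul hs0 hu, hsdeg]
    have h1 : -th.intDegree = i * -u.intDegree + (j + 1) * -v.intDegree + -(E u).intDegree -
        m * -v.intDegree := hwt
    linarith
  have hL1 : (m.lcm n : ℤ) * (th.intDegree - l) ≤ -(pz b).intDegree := by
    rw [← e1]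
    exact hL
  rw [RatFunc.intDegree_polynomial] at hL1
  have ht1 : (0 : ℤ) ≤ (t.natDegree : ℤ) := by positivity
  have hLc : (0 : ℤ) ≤ (m.lcm n : ℤ) := by positivity
  have h2 : (m.lcm n : ℤ) * (-(l + L.natDegree)) ≤ (m.lcm n : ℤ) * (th.intDegree - l) :=
    mul_le_mul_of_nonneg_left (by linarith) hLc
  have h3 : (m.lcm n : ℤ) * (-(l + L.natDegree)) = -((m.lcm n : ℤ) * (l + L.natDegree)) := by
    ring
  rw [h3] at h2
  linarith

end EVW
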