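import Pool.Agent.EVW.Api

set_option autoImplicit false

namespace EVW

open Polynomial EVR EVS

namespace NUM_

/-- residues -/
theorem exists_rep {a b : ℕ} (hb : 1 ≤ b) (h : Nat.Coprime a b) (N : ℤ) :
    ∃ x : ℤ, 1 ≤ x ∧ x ≤ b ∧ (b : ℤ) ∣ N - a * x := by
  have hc : IsCoprime (a : ℤ) (b : ℤ) := Nat.isCoprime_iff_coprime.2 h
  obtain ⟨u, v, huv⟩ := hc
  have hb' : (0 : ℤ) < b := by exact_mod_cast hb
  have h1 := Int.emod_nonneg (u * N - 1) hb'.ne'
  have h2 := Int.emod_lt_of_pos (u * N - 1) hb'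
  have h3 := Int.mul_ediv_add_emod (u * N - 1) b
  refine ⟨(u * N - 1) % b + 1, by linarith, by linarith, ?_⟩
  refine ⟨v * N + a * ((u * N - 1) / b), ?_⟩
  have e : (u * N - 1) % (b : ℤ) = u * N - 1 - b * ((u * N - 1) / b) := by linarith
  rw [e]
  linear_combination (-N) * huv

theorem key {a b g : ℕ} (ha : 1 ≤ a) (hb : 1 ≤ b) (hg : 1 ≤ g) (h : Nat.Coprime a b)
    (hmn : g * b + g * a < (g * b) * (g * a)) :
    ∃ i j : ℕ, (j + 1) * a + (i + 1) * b + 1 = g * (a * b) := by
  obtain ⟨x, hx1, hx2, y, hy⟩ := exists_rep hb h ((g : ℤ) * (a * b) - 1)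
  have ha' : (1 : ℤ) ≤ a := by exact_mod_cast ha
  have hb' : (1 : ℤ) ≤ b := by exact_mod_cast hb
  have hg' : (1 : ℤ) ≤ g := by exact_mod_cast hg
  have hmn' : (g : ℤ) * b + g * a < (g * b) * (g * a) := by exact_mod_cast hmn
  have hy1 : 1 ≤ y := by
    by_contra hcon
    have hy0 : y ≤ 0 := by omega
    have h4 : (g : ℤ) * (a * b) - 1 - a * x ≤ 0 := by
      rw [hy]
      nlinarith
    -- so `g a b ≤ a x + 1 ≤ a b + 1`
    rcases Nat.lt_or_ge 1 g with hg2 | hg1
    · have hg2' : (2 : ℤ) ≤ g := by exact_mod_cast hg2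
      have h5 : (a : ℤ) * x ≤ a * b := mul_le_mul_of_nonneg_left hx2 (by linarith)
      have h6 : (1 : ℤ) ≤ a * b := by nlinarith
      have h7 : (g : ℤ) * (a * b) ≤ a * b + 1 := by linarith
      have h8 : (2 : ℤ) * (a * b) ≤ g * (a * b) := mul_le_mul_of_nonneg_right hg2' (by linarith)
      have h9 : (a : ℤ) * b = 1 := by linarith
      have h10 : (a : ℤ) = 1 := by nlinarith
      have h11 : (b : ℤ) = 1 := by nlinarith
      rw [h10, h11] at hmn' h7
      nlinarith
    · have hg1' : g = 1 := by omega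
      subst hg1'
      simp only [Nat.cast_one, one_mul] at *
      have hb2 : (2 : ℤ) ≤ b := by
        by_contra hb2
        have : (b : ℤ) = 1 := by omega
        rw [this] at hmn'
        linarith
      have ha2 : (2 : ℤ) ≤ a := by
        by_contra ha2
        have : (a : ℤ) = 1 := by omega
        rw [this] at hmn'
        linarith
      have hxb : x ≠ b := by
        rintro rfl
        have h5 : (b : ℤ) * (-y) = 1 := by linarith
        have h6 : (b : ℤ) ∣ 1 := ⟨-y, h5.symm⟩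
        have h7 := Int.le_of_dvd one_pos h6
        linarith
      have hx3 : x ≤ b - 1 := by omega
      have h5 : (a : ℤ) * x ≤ a * (b - 1) := mul_le_mul_of_nonneg_left hx3 (by linarith)
      linarith
  refine ⟨(y - 1).toNat, (x - 1).toNat, ?_⟩
  have e1 : (((y - 1).toNat : ℕ) : ℤ) = y - 1 := Int.toNat_of_nonneg (by linarith)
  have e2 : (((x - 1).toNat : ℕ) : ℤ) = x - 1 := Int.toNat_of_nonneg (by linarith)
  zify
  rw [e1, e2]
  linear_combination (-1 : ℤ) * hy

end NUM_

theorem num_proof : Stmt_NUM := by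
  intro m n hmn
  have hm : 0 < m := by
    rcases Nat.eq_zero_or_pos m with rfl | h'
    · omega
    · exact h'
  have hn : 0 < n := by
    rcases Nat.eq_zero_or_pos n with rfl | h'
    · simp at hmn
    · exact h'
  obtain ⟨g, b, a, hg, hcop, hmb, hna⟩ : ∃ g b a : ℕ, 0 < g ∧ Nat.Coprime b a ∧ m = b * g ∧
      n = a * g := by
    obtain ⟨b, a, hc, h1, h2⟩ := Nat.exists_coprime m n
    exact ⟨m.gcd n, b, a, Nat.gcd_pos_of_pos_left n hm, hc, h1, h2⟩
  have hb : 0 < b := by
    rcases Nat.eq_zero_or_pos b with rfl | h'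
    · omega
    · exact h'
  have ha : 0 < a := by
    rcases Nat.eq_zero_or_pos a with rfl | h'
    · omega
    · exact h'
  have hl : m.lcm n = g * (a * b) := by
    rw [hmb, hna, Nat.lcm_mul_right, hcop.lcm_eq_mul]
    ring
  have h1 : m.lcm n / m = a := by
    rw [hl, hmb, show g * (a * b) = a * (b * g) by ring]
    exact Nat.mul_div_cancel a (Nat.mul_pos hb hg)
  have h2 : m.lcm n / n = b := by
    rw [hl, hna, show g * (a * b) = b * (a * g) by ring]
    exact Nat.mul_div_cancel b (Nat.mul_pos ha hg)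
  rw [h1, h2, hl]
  refine NUM_.key ha hb hg hcop.symm ?_
  rw [hmb, hna] at hmn
  rw [mul_comm g b, mul_comm g a]
  exact hmn

end EVW
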