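import Pool.Agent.EVW.Api

/-!
# Squad EVW (MP_3e5173_lc), module PTF: points of the curves `vᵐ = uⁿ + B` over `k(Z)(f)`
-/

set_option autoImplicit false

namespace EVW

open Polynomial EVR EVS

noncomputable section

namespace PTF_

/-- the equation after the change of coordinates -/
theorem scaled {r B b u v : K} {m n a c L : ℕ} (hr : r ≠ 0) (hm : c * m = L) (hn : a * n = L)
    (hB : B = r ^ L * b) (h : v ^ m = u ^ n + B) :
    (v / r ^ c) ^ m = (u / r ^ a) ^ n + b := by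
  subst hB
  have hrL : r ^ L ≠ 0 := pow_ne_zero _ hr
  rw [div_pow, div_pow, ← pow_mul, ← pow_mul, hm, hn, h]
  field_simp

theorem gd_tr (hTR2 : Stmt_TR2) {k : Subfield ℂ} {f γ : ℂ[X]} {e : ℕ} (h : Gd k f γ e) :
    Tr (kZ k) (pz f) := by
  obtain ⟨D, hD, hD'⟩ := h.big
  refine hTR2 k f ⟨D, hD, fun h0 => ?_⟩
  rw [h0, natDegree_zero] at hD'
  have := h.lt
  omega

/-- multiplication back -/
theorem back {k : Subfield ℂ} {f : ℂ[X]} {r u v : K} {a c : ℕ} (hr : r ∈ fld k f) (h0 : r ≠ 0)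
    (hu : u / r ^ a ∈ fld k f) (hv : v / r ^ c ∈ fld k f) : u ∈ fld k f ∧ v ∈ fld k f := by
  constructor
  · have : u = r ^ a * (u / r ^ a) := by
      field_simp
    rw [this]
    exact mul_mem (pow_mem hr a) hu
  · have : v = r ^ c * (v / r ^ c) := by
      field_simp
    rw [this]
    exact mul_mem (pow_mem hr c) hv

end PTF_

theorem ptf_proof (hCSF : Stmt_CSF) (hCNF : Stmt_CNF) (hTR2 : Stmt_TR2) (hGEN : Stmt_GEN)
    (hZDE : Stmt_ZDE) (hRIE : Stmt_RIE) (hMIE : Stmt_MIE) : Stmt_PTF := by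
  intro s r k0 k f B u v m n hT hk hmn hmr hB hB0 he
  obtain ⟨k', γ, d, e, e', hkk, hz, hG, hG', hdeg, hLg, -, hlt⟩ := hT k hk
  have hTr : Tr (kZ k) (pz f) := PTF_.gd_tr hTR2 hG
  have hTr' : Tr (kZ k') (pz f) := PTF_.gd_tr hTR2 hG'
  have hm0 : 0 < m := by
    rcases Nat.eq_zero_or_pos m with h | h
    · subst h
      omega
    · exact h
  have hn0 : 0 < n := by
    rcases Nat.eq_zero_or_pos n with h | h
    · subst h
      omega
    · exact h
  have hL : 1 ≤ m.lcm n := Nat.lcm_pos hm0 hn0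
  have hLm : m.lcm n / m * m = m.lcm n := Nat.div_mul_cancel (Nat.dvd_lcm_left m n)
  have hLn : m.lcm n / n * n = m.lcm n := Nat.div_mul_cancel (Nat.dvd_lcm_right m n)
  obtain ⟨ρ, B', hr, hr0, hM, eB⟩ := hMIE k f (m.lcm n) B hTr hL hB hB0
  have hB'0 : B' ≠ 0 := by
    intro h0
    apply hB0
    rw [eB, h0, map_zero, map_zero, mul_zero]
  have he' := PTF_.scaled hr0 hLm hLn eB he
  by_cases hx : 1 ≤ B'.natDegree
  · left
    obtain ⟨⟨l, hl⟩, ⟨l', hl'⟩⟩ := hZDE k k' f γ d e r B' _ _ m n hG.clo hkk hTr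
      hG.ne hG'.gc hdeg hLg hlt hmn hmr hM hB'0 hx he'
    have hu := hGEN k' f γ e' _ l hG' hl
    have hv := hGEN k' f γ e' _ l' hG' hl'
    obtain ⟨hu', hv'⟩ := hRIE k k' f B' _ _ m n hG.clo hG'.clo hkk hz hTr' hmn hM hB'0 hx
      hu hv he'
    exact PTF_.back hr hr0 hu' hv'
  · obtain ⟨b, hb⟩ : ∃ b, B' = C b := ⟨B'.coeff 0, eq_C_of_natDegree_eq_zero (by omega)⟩
    subst hb
    rw [bev_C] at he' eB
    have hb0 : b ≠ 0 := fun h => hB'0 (by rw [h, map_zero])
    by_cases hy : 0 < b.natDegree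
    · left
      obtain ⟨hu, hv⟩ := hCNF k b _ _ m n hG.clo hmn hM hb0 hy he'
      exact PTF_.back hr hr0 (kZ_le_fld k f hu) (kZ_le_fld k f hv)
    · right
      obtain ⟨β, hβ⟩ : ∃ β, b = C β := ⟨b.coeff 0, eq_C_of_natDegree_eq_zero (by omega)⟩
      subst hβ
      rw [Polynomial.map_C, pz_C] at he' eB
      have hβ0 : k.subtype β ≠ 0 := by
        intro h0
        apply hb0
        have : β = 0 := by
          apply Subtype.ext
          exact h0
        rw [this, map_zero]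
      obtain ⟨u0, v0, hu0, hv0⟩ := hCSF _ _ _ m n hmn hβ0 he'
      refine ⟨ρ, k.subtype β, u0, v0, hr, hr0, β.2, eB, ?_, ?_⟩
      · rw [← hu0]
        field_simp
      · rw [← hv0]
        field_simp

end

end EVW
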