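import Pool.Agent.EVW.Api
import Pool.Agent.EVR.QFT

set_option autoImplicit false

namespace EVW

open Polynomial EVR EVS

theorem qti_proof : Stmt_QTI := by
  intro L ι Φ hΦ y t hy ht
  induction hΦ with
  | zero P hP => exact (qft_proof L ι _ (QFO.zero P hP) y t hy ht).countable
  | neg h ih =>
    refine ih.mono ?_
    intro t' h'
    simp only [Set.mem_ofPred_eq] at h' ⊢
    intro hh
    exact h' (not_congr hh)
  | all h ih =>
    refine (Set.countable_iUnion ih).mono ?_
    intro t' h'
    simp only [Set.mem_ofPred_eq] at h'
    rw [Set.mem_iUnion]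
    by_contra hcon
    refine h' (forall_congr' fun n => ?_)
    by_contra h1
    exact hcon ⟨n, h1⟩

end EVW
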