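import Pool.Agent.EVW.Api
import Pool.Agent.EVS.RG1

/-!
# Squad EVW: no multiple roots at a generic `z`
-/

set_option autoImplicit false

namespace EVW

open Polynomial EVR EVS

theorem rge_proof (hPRI : Stmt_PRI) : Stmt_RGE := by
  intro k z c B e hk hz hM hB he
  rcases Nat.eq_zero_or_pos e with h0 | hpos
  · subst h0
    have hX : Irreducible (X : Polynomial (Polynomial k)) := Polynomial.irreducible_X
    exact hM X hX (by rw [pow_zero]; exact one_dvd _)
  · have hG0 : ev2 k z c B = 0 := by
      have h2 := dvd_iff_isRoot.1 ((dvd_pow_self (X - C c) hpos.ne').trans he)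
      rw [IsRoot.def, eval_ev1] at h2
      exact h2
    obtain ⟨π, hπ, hπ0, hπ', hker⟩ := hPRI k z c B hk hz hB hG0
    have hroot : IsRoot (ev1 k z π) c := by
      rw [IsRoot.def, eval_ev1]
      exact hπ0
    obtain ⟨u, hu⟩ := dvd_iff_isRoot.2 hroot
    have hu' : ¬ (X - C c) ∣ u := by
      rintro ⟨v, hv⟩
      apply hπ'
      rw [← eval_ev1, ← derivative_ev1, hu, hv]
      simp
    exact hM π hπ (RG1_.pow_dvd hker hu hu' e B he)

end EVW
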