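import Pool.Agent.EVW.Api
import Pool.Agent.EVS.SPD

/-!
# Squad EVW (MP_3e5173_lc), module SPR: specialisation of infinitary existential conditions
-/

set_option autoImplicit false

namespace EVW

open Polynomial EVR EVS

noncomputable section

namespace SPR_

open EVS.SPD_

/-- the equation -/
theorem exists_fer {F : Subfield K} {ι : Type} {B : MvPolynomial ι K} (hB : CoM F B)
    (m n : ℕ) : ∃ H : MvPolynomial (Option (Option ι)) K, (∀ a, H.coeff a ∈ F) ∧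
      ∀ (y : ι → K) (u v : K), MvPolynomial.eval (ext (ext y u) v) H =
        v ^ m - (u ^ n + MvPolynomial.eval y B) := by
  obtain ⟨B', hB'⟩ := mv_lift hB
  refine ⟨MvPolynomial.map F.subtype (MvPolynomial.X none ^ m -
    (MvPolynomial.X (some none) ^ n + MvPolynomial.rename (fun i => some (some i)) B')),
    fun a => ?_, fun y u v => ?_⟩
  · rw [MvPolynomial.coeff_map]
    exact SetLike.coe_mem _
  · simp only [map_add, map_sub, map_pow, MvPolynomial.map_X, MvPolynomial.eval_X,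
      MvPolynomial.map_rename, hB', MvPolynomial.eval_rename]
    rfl

/-- the induction -/
theorem main (hREP : Stmt_REP) (hQFL : Stmt_QFL) (hQFT : Stmt_QFT) (hTR2 : Stmt_TR2)
    (hRA2 : Stmt_RA2) (hPT2 : Stmt_PT2) (hPTF : Stmt_PTF) (hDFT : Stmt_DFT) {s r : ℕ}
    {k0 : Subfield ℂ} {f : ℂ[X]} (hTR : TsR s r k0 f) {N : ℕ} {ι : Type} {Φ : (ι → K) → Prop}
    (hΦ : BJO (kZ k0) r N ι Φ) :
    Finite ι → ∀ (s' : ℕ) (k : Subfield ℂ), s' + 2 * N ≤ s → Dft s' k0 k → ∀ P Q : ι → K[X],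
      (∀ i, Co (kZ k) (P i) ∧ Co (kZ k) (Q i) ∧ (Q i).eval (pz f) ≠ 0) →
      Φ (fun i => (P i).eval (pz f) / (Q i).eval (pz f)) →
      ∃ T : Set K, T.Finite ∧ ∀ h : K, h ∉ T → (∀ i, (Q i).eval h ≠ 0) ∧
        Φ (fun i => (P i).eval h / (Q i).eval h) := by
  have hT : Tst s k0 f := hTR.tst
  set g : K := pz f with hg
  have hk0 : ∀ {s' : ℕ} {k : Subfield ℂ}, Dft s' k0 k → kZ k0 ≤ kZ k := fun {s' k} hD =>
    kZ_mono (hDFT.2.1 s' k0 k hD).2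
  have hyL : ∀ {k : Subfield ℂ} {ι : Type} {P Q : ι → K[X]},
      (∀ i, Co (kZ k) (P i) ∧ Co (kZ k) (Q i) ∧ (Q i).eval g ≠ 0) →
      ∀ i, (P i).eval g / (Q i).eval g ∈ fld k f := fun {k ι P Q} h i =>
    div_mem (eval_mem (kZ_le_fld k f) (h i).1 (pz_mem_fld k f))
      (eval_mem (kZ_le_fld k f) (h i).2.1 (pz_mem_fld k f))
  induction hΦ with
  | @qf N ι Φ h =>
    intro hι s' k hs hD P Q hPQ hΦ
    obtain ⟨hTr, -⟩ := test hTR2 hRA2 hDFT hT (by omega : s' ≤ s) hD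
    obtain ⟨T, hT1, hT2⟩ := hQFL (kZ k) g ι Φ (h.mono (hk0 hD)) hTr P Q hPQ
    exact ⟨T, hT1, fun x hx => ⟨(hT2 x hx).1, (hT2 x hx).2.2 hΦ⟩⟩
  | @free N ι Φ h =>
    intro hι s' k hs hD P Q hPQ ht
    obtain ⟨t, ht⟩ := ht
    obtain ⟨hTr, hRA⟩ := test hTR2 hRA2 hDFT hT (by omega : s' ≤ s) hD
    have key : ∃ P' Q' : K[X], Co (kZ k) P' ∧ Co (kZ k) Q' ∧ Q'.eval g ≠ 0 ∧
        Φ (ext (fun i => (P i).eval g / (Q i).eval g) (P'.eval g / Q'.eval g)) := by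
      by_cases hal : IsAlgebraic (fld k f) t
      · obtain ⟨P', Q', h1, h2, h3, h4⟩ := hREP (kZ k) g t (hRA t hal)
        refine ⟨P', Q', h1, h2, h3, ?_⟩
        rw [← h4]
        exact ht
      · have hfin := hQFT (fld k f) ι Φ (h.mono ((hk0 hD).trans (kZ_le_fld k f))) _ t
          (hyL hPQ) hal
        have hinf : (Set.range (fun n : ℕ => (n : K))).Infinite :=
          Set.infinite_range_of_injective Nat.cast_injective
        obtain ⟨x, ⟨n, rfl⟩, hx⟩ := (hinf.sdiff hfin).nonempty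
        rw [Set.mem_ofPred_eq, not_not] at hx
        refine ⟨C (n : K), 1, co_C (natCast_mem _ n), co_one _, by simp, ?_⟩
        rw [eval_C, eval_one, div_one]
        exact hx.2 ht
    obtain ⟨P', Q', h1, h2, h3, h4⟩ := key
    obtain ⟨T, hT1, hT2⟩ := hQFL (kZ k) g (Option ι) Φ (h.mono (hk0 hD)) hTr (ex P P') (ex Q Q')
      (ex_cond hPQ ⟨h1, h2, h3⟩)
    refine ⟨T, hT1, fun x hx => ?_⟩
    obtain ⟨h5, h6⟩ := hT2 x hx
    rw [ext_eq, ext_eq] at h6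
    exact ⟨fun i => h5 (some i), P'.eval x / Q'.eval x, h6.2 h4⟩
  | @and N ι Φ Ψ h h' ih ih' =>
    intro hι s' k hs hD P Q hPQ hΦ
    obtain ⟨T, hT1, hT2⟩ := ih hι s' k hs hD P Q hPQ hΦ.1
    obtain ⟨T', hT1', hT2'⟩ := ih' hι s' k hs hD P Q hPQ hΦ.2
    refine ⟨T ∪ T', hT1.union hT1', fun x hx => ?_⟩
    have h1 := hT2 x fun hh => hx (Or.inl hh)
    have h2 := hT2' x fun hh => hx (Or.inr hh)
    exact ⟨h1.1, h1.2, h2.2⟩
  | @any N ι Φ h ih =>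
    intro hι s' k hs hD P Q hPQ hΦ
    obtain ⟨n, hΦ⟩ := hΦ
    obtain ⟨T, hT1, hT2⟩ := ih n hι s' k hs hD P Q hPQ hΦ
    exact ⟨T, hT1, fun x hx => ⟨(hT2 x hx).1, n, (hT2 x hx).2⟩⟩
  | @cnt N ι W hW Φ h ih =>
    intro hι s' k hs hD P Q hPQ hc
    obtain ⟨n, hc⟩ := hc
    have hcond := ex_cond (P' := C (W n)) (Q' := 1) hPQ
      ⟨co_C (hk0 hD (hW n)), co_one _, by simp⟩
    have heq : ∀ x : K, (C (W n) : K[X]).eval x / (1 : K[X]).eval x = W n := fun x => by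
      rw [eval_C, eval_one, div_one]
    obtain ⟨T, hT1, hT2⟩ := ih inferInstance s' k hs hD (ex P (C (W n))) (ex Q 1) hcond (by
        rw [ext_eq, heq]
        exact hc)
    refine ⟨T, hT1, fun x hx => ?_⟩
    obtain ⟨h5, h6⟩ := hT2 x hx
    rw [ext_eq, heq] at h6
    exact ⟨fun i => h5 (some i), n, h6⟩
  | @const N ι Φ h ih =>
    intro hι s' k hs hD P Q hPQ hc
    obtain ⟨c, hc⟩ := hc
    obtain ⟨k1, hD1, hk1, hc1⟩ := step hDFT hD c
    have hcond := ex_cond (P' := C (cst c)) (Q' := 1) (cond_mono (kZ_mono hk1) hPQ)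
      ⟨co_C (cst_mem_kZ hc1), co_one _, by simp⟩
    have heq : ∀ x : K, (C (cst c) : K[X]).eval x / (1 : K[X]).eval x = cst c := fun x => by
      rw [eval_C, eval_one, div_one]
    obtain ⟨T, hT1, hT2⟩ := ih inferInstance (s' + 1) k1 (by omega) hD1 (ex P (C (cst c)))
      (ex Q 1) hcond (by
        rw [ext_eq, heq]
        exact hc)
    refine ⟨T, hT1, fun x hx => ?_⟩
    obtain ⟨h5, h6⟩ := hT2 x hx
    rw [ext_eq, heq] at h6
    exact ⟨fun i => h5 (some i), c, h6⟩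
  | @alg N ι G hG Φ h ih =>
    intro hι s' k hs hD P Q hPQ hw
    obtain ⟨w, hw0, hw1, hw2⟩ := hw
    obtain ⟨hTr, hRA⟩ := test hTR2 hRA2 hDFT hT (by omega : s' ≤ s) hD
    have hF : kZ k0 ≤ kZ k := hk0 hD
    have hwL : w ∈ fld k f := by
      apply hRA
      rw [isAlgebraic_iff']
      refine ⟨_, fun n => ?_, hw0, hw1⟩
      rw [coeff_map]
      exact mv_eval_mem (hF.trans (kZ_le_fld k f)) (hG n) (hyL hPQ)
    obtain ⟨P', Q', h1, h2, h3, h4⟩ := hREP (kZ k) g w hwL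
    have hcond := ex_cond hPQ ⟨h1, h2, h3⟩
    obtain ⟨T, hT1, hT2⟩ := ih inferInstance s' k hs hD (ex P P') (ex Q Q') hcond (by
      rw [ext_eq, ← h4]
      exact hw2)
    obtain ⟨n, hn⟩ : ∃ n, MvPolynomial.eval (fun i => (P i).eval g / (Q i).eval g)
        (G.coeff n) ≠ 0 := by
      by_contra hcon
      push Not at hcon
      apply hw0
      ext n
      rw [coeff_map, hcon n, coeff_zero]
    obtain ⟨T1, hT11, hT12⟩ := hQFL (kZ k) g ι _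
      ((QFO.zero (G.coeff n) (hG n)).mono hF) hTr P Q hPQ
    obtain ⟨H, hH, hH'⟩ := exists_H G hG
    obtain ⟨T3, hT31, hT32⟩ := hQFL (kZ k) g (Option ι) _ ((QFO.zero H hH).mono hF) hTr
      (ex P P') (ex Q Q') hcond
    refine ⟨T ∪ T1 ∪ T3, (hT1.union hT11).union hT31, fun x hx => ?_⟩
    have hx0 : x ∉ T := fun hh => hx (Or.inl (Or.inl hh))
    have hx1 : x ∉ T1 := fun hh => hx (Or.inl (Or.inr hh))
    have hx2 : x ∉ T3 := fun hh => hx (Or.inr hh)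
    obtain ⟨h5, h6⟩ := hT2 x hx0
    obtain ⟨-, h7⟩ := hT12 x hx1
    obtain ⟨-, h8⟩ := hT32 x hx2
    rw [ext_eq] at h6
    rw [ext_eq, ext_eq, hH', hH', ← h4] at h8
    refine ⟨fun i => h5 (some i), P'.eval x / Q'.eval x, ?_, h8.2 hw1, h6⟩
    intro h0
    have h9 := congrArg (fun p => Polynomial.coeff p n) h0
    simp only [coeff_map, coeff_zero] at h9
    exact hn (h7.1 h9)
  | @ell N ι A B hA hB Φ h ih =>
    intro hι s' k hs hD P Q hPQ hw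
    obtain ⟨u, v, hdisc, heqn, huv⟩ := hw
    set y : ι → K := fun i => (P i).eval g / (Q i).eval g with hy
    have hF : kZ k0 ≤ kZ k := hk0 hD
    have hAL : MvPolynomial.eval y A ∈ fld k f :=
      mv_eval_mem (hF.trans (kZ_le_fld k f)) hA (hyL hPQ)
    have hBL : MvPolynomial.eval y B ∈ fld k f :=
      mv_eval_mem (hF.trans (kZ_le_fld k f)) hB (hyL hPQ)
    -- a larger field
    obtain ⟨s2, k2, hs2, hD2, hk2, hu, hv⟩ : ∃ (s2 : ℕ) (k2 : Subfield ℂ), s2 + 2 * N ≤ s ∧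
        Dft s2 k0 k2 ∧ k ≤ k2 ∧ u ∈ fld k2 f ∧ v ∈ fld k2 f := by
      rcases hPT2 s k0 k f _ _ u v hT (hDFT.1 s' s k0 k (by omega) hD) hAL hBL hdisc heqn with
        h1 | ⟨ρ, α, β, u0, v0, hr, -, -, -, -, -, hu, hv⟩
      · exact ⟨s', k, by omega, hD, le_rfl, h1.1, h1.2⟩
      · obtain ⟨k1, hD1, hk1, hu0⟩ := step hDFT hD u0
        obtain ⟨k2, hD2, hk2, hv0⟩ := step hDFT hD1 v0
        have hr2 : ρ ∈ fld k2 f := fld_mono (hk1.trans hk2) f hr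
        refine ⟨s' + 1 + 1, k2, by omega, hD2, hk1.trans hk2, ?_, ?_⟩
        · rw [hu]
          exact mul_mem (pow_mem hr2 2) (kZ_le_fld k2 f (cst_mem_kZ (hk2 hu0)))
        · rw [hv]
          exact mul_mem (pow_mem hr2 3) (kZ_le_fld k2 f (cst_mem_kZ hv0))
    obtain ⟨hTr, -⟩ := test hTR2 hRA2 hDFT hT (by omega : s2 ≤ s) hD2
    obtain ⟨P1, Q1, h1, h2, h3, h4⟩ := hREP (kZ k2) g u hu
    obtain ⟨P2, Q2, h5, h6, h7, h8⟩ := hREP (kZ k2) g v hv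
    have hPQ2 := cond_mono (kZ_mono hk2) hPQ
    have hcond := ex_cond (ex_cond hPQ2 ⟨h1, h2, h3⟩) ⟨h5, h6, h7⟩
    obtain ⟨T, hT1, hT2⟩ := ih inferInstance s2 k2 hs2 hD2 (ex (ex P P1) P2) (ex (ex Q Q1) Q2)
      hcond (by
        rw [ext_eq, ext_eq, ← h4, ← h8]
        exact huv)
    obtain ⟨Hd, hHd, hHd'⟩ := exists_disc hA hB
    obtain ⟨He, hHe, hHe'⟩ := exists_eqn hA hB
    obtain ⟨T3, hT31, hT32⟩ := hQFL (kZ k2) g ι _ ((QFO.zero Hd hHd).mono (hk0 hD2)) hTr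
      P Q hPQ2
    obtain ⟨T4, hT41, hT42⟩ := hQFL (kZ k2) g (Option (Option ι)) _
      ((QFO.zero He hHe).mono (hk0 hD2)) hTr (ex (ex P P1) P2) (ex (ex Q Q1) Q2) hcond
    refine ⟨T ∪ T3 ∪ T4, (hT1.union hT31).union hT41, fun x hx => ?_⟩
    have hx0 : x ∉ T := fun hh => hx (Or.inl (Or.inl hh))
    have hx1 : x ∉ T3 := fun hh => hx (Or.inl (Or.inr hh))
    have hx2 : x ∉ T4 := fun hh => hx (Or.inr hh)
    obtain ⟨h9, h10⟩ := hT2 x hx0
    obtain ⟨-, h11⟩ := hT32 x hx1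
    obtain ⟨-, h12⟩ := hT42 x hx2
    rw [ext_eq, ext_eq] at h10
    rw [hHd', hHd'] at h11
    rw [ext_eq, ext_eq, ext_eq, ext_eq, hHe', hHe', ← h4, ← h8] at h12
    refine ⟨fun i => h9 (some (some i)), P1.eval x / Q1.eval x, P2.eval x / Q2.eval x, ?_, ?_,
      h10⟩
    · exact fun h0 => hdisc (h11.1 h0)
    · have h13 := h12.2 (sub_eq_zero.2 heqn)
      exact sub_eq_zero.1 h13

  | @fer N ι m n hmn hR B hB Φ h ih =>
    intro hι s' k hs hD P Q hPQ hw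
    obtain ⟨u, v, hdisc, heqn, huv⟩ := hw
    set y : ι → K := fun i => (P i).eval g / (Q i).eval g with hy
    have hF : kZ k0 ≤ kZ k := hk0 hD
    have hBL : MvPolynomial.eval y B ∈ fld k f :=
      mv_eval_mem (hF.trans (kZ_le_fld k f)) hB (hyL hPQ)
    -- a larger field
    obtain ⟨s2, k2, hs2, hD2, hk2, hu, hv⟩ : ∃ (s2 : ℕ) (k2 : Subfield ℂ), s2 + 2 * N ≤ s ∧
        Dft s2 k0 k2 ∧ k ≤ k2 ∧ u ∈ fld k2 f ∧ v ∈ fld k2 f := by
      rcases hPTF s r k0 k f _ u v m n hTR (hDFT.1 s' s k0 k (by omega) hD) hmn hR hBL hdisc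
        heqn with h1 | ⟨ρ, β, u0, v0, hr, -, -, -, hu, hv⟩
      · exact ⟨s', k, by omega, hD, le_rfl, h1.1, h1.2⟩
      · obtain ⟨k1, hD1, hk1, hu0⟩ := step hDFT hD u0
        obtain ⟨k2, hD2, hk2, hv0⟩ := step hDFT hD1 v0
        have hr2 : ρ ∈ fld k2 f := fld_mono (hk1.trans hk2) f hr
        refine ⟨s' + 1 + 1, k2, by omega, hD2, hk1.trans hk2, ?_, ?_⟩
        · rw [hu]
          exact mul_mem (pow_mem hr2 _) (kZ_le_fld k2 f (cst_mem_kZ (hk2 hu0)))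
        · rw [hv]
          exact mul_mem (pow_mem hr2 _) (kZ_le_fld k2 f (cst_mem_kZ hv0))
    obtain ⟨hTr, -⟩ := test hTR2 hRA2 hDFT hT (by omega : s2 ≤ s) hD2
    obtain ⟨P1, Q1, h1, h2, h3, h4⟩ := hREP (kZ k2) g u hu
    obtain ⟨P2, Q2, h5, h6, h7, h8⟩ := hREP (kZ k2) g v hv
    have hPQ2 := cond_mono (kZ_mono hk2) hPQ
    have hcond := ex_cond (ex_cond hPQ2 ⟨h1, h2, h3⟩) ⟨h5, h6, h7⟩
    obtain ⟨T, hT1, hT2⟩ := ih inferInstance s2 k2 hs2 hD2 (ex (ex P P1) P2) (ex (ex Q Q1) Q2)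
      hcond (by
        rw [ext_eq, ext_eq, ← h4, ← h8]
        exact huv)
    obtain ⟨He, hHe, hHe'⟩ := exists_fer hB m n
    obtain ⟨T3, hT31, hT32⟩ := hQFL (kZ k2) g ι _ ((QFO.zero B hB).mono (hk0 hD2)) hTr
      P Q hPQ2
    obtain ⟨T4, hT41, hT42⟩ := hQFL (kZ k2) g (Option (Option ι)) _
      ((QFO.zero He hHe).mono (hk0 hD2)) hTr (ex (ex P P1) P2) (ex (ex Q Q1) Q2) hcond
    refine ⟨T ∪ T3 ∪ T4, (hT1.union hT31).union hT41, fun x hx => ?_⟩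
    have hx0 : x ∉ T := fun hh => hx (Or.inl (Or.inl hh))
    have hx1 : x ∉ T3 := fun hh => hx (Or.inl (Or.inr hh))
    have hx2 : x ∉ T4 := fun hh => hx (Or.inr hh)
    obtain ⟨h9, h10⟩ := hT2 x hx0
    obtain ⟨-, h11⟩ := hT32 x hx1
    obtain ⟨-, h12⟩ := hT42 x hx2
    rw [ext_eq, ext_eq] at h10
    rw [ext_eq, ext_eq, ext_eq, ext_eq, hHe', hHe', ← h4, ← h8] at h12
    refine ⟨fun i => h9 (some (some i)), P1.eval x / Q1.eval x, P2.eval x / Q2.eval x, ?_, ?_,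
      h10⟩
    · exact fun h0 => hdisc (h11.1 h0)
    · have h13 := h12.2 (sub_eq_zero.2 heqn)
      exact sub_eq_zero.1 h13

end SPR_

theorem spr_proof (hREP : Stmt_REP) (hQFL : Stmt_QFL) (hQFT : Stmt_QFT) (hTR2 : Stmt_TR2)
    (hRA2 : Stmt_RA2) (hPT2 : Stmt_PT2) (hPTF : Stmt_PTF) (hDFT : Stmt_DFT) : Stmt_SPR := by
  intro s r k0 f hT N ι Φ hΦ hι s' k hs hD P Q hPQ h
  exact SPR_.main hREP hQFL hQFT hTR2 hRA2 hPT2 hPTF hDFT hT hΦ hι s' k hs hD P Q hPQ h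

end

end EVW
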