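import Pool.Agent.EVW.Api
import Pool.Agent.EVS.TST

/-!
# Squad EVW (MP_3e5173_lc): module TSR (existence of test polynomials)
-/

set_option autoImplicit false

namespace EVW

open Polynomial EVR EVS

noncomputable section

open TST_

theorem tsr_proof (hDER : Stmt_DER) (hTIN : Stmt_TIN) (hTDR : Stmt_TDR) (hTGC : Stmt_TGC)
    (hTTP : Stmt_TTP) (hDFT : Stmt_DFT) : Stmt_TSR := by
  intro k0 hk0 hind s r
  obtain ⟨d, hd⟩ : ∃ d : ℕ, d = 3 * s + 1 := ⟨_, rfl⟩
  obtain ⟨q, hq⟩ : ∃ q : ℕ, q = r * (d + 2 * s) := ⟨_, rfl⟩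
  obtain ⟨M, hM⟩ : ∃ M : ℕ, M = 6 * d + 9 * s + 2 + q := ⟨_, rfl⟩
  obtain ⟨t, ht⟩ := hind ((s + 1) + (d + 1))
  obtain ⟨b, hb⟩ : ∃ b : Fin (s + 1) → ℂ, b = fun j => t (Fin.castAdd (d + 1) j) := ⟨_, rfl⟩
  obtain ⟨a, ha⟩ : ∃ a : Fin (d + 1) → ℂ, a = fun i => t (Fin.natAdd (s + 1) i) := ⟨_, rfl⟩
  have hba : AlgebraicIndependent k0 (Sum.elim b a) := by
    have h1 : Sum.elim b a = t ∘ finSumFinEquiv := by
      funext x
      rcases x with x | x
      · simp [hb]
      · simp [ha]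
    rw [h1]
    exact ht.comp _ finSumFinEquiv.injective
  have hMd : d + s < M := by omega
  refine ⟨tf s d M b a, ?_, ?_⟩
  · rw [tf_eval hMd]
    have := hba.ne_zero (Sum.inr 0)
    exact this
  · intro k hk
    obtain ⟨hkc, hk0k⟩ := hDFT.2.1 s k0 k hk
    obtain ⟨k', hk1, hk2, hk3⟩ := exists_acl (ad k (Set.range b))
    have hkk' : k ≤ k' := (le_ad k _).trans hk1
    have hbk' : ∀ j, b j ∈ k' := fun j => hk1 (mem_ad k ⟨j, rfl⟩)
    obtain ⟨hj, I, hI, hIa⟩ := hTIN k0 k k' s (s + 1) (d + 1) b a hba hk hk3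
    obtain ⟨j, hj⟩ := hj (Nat.lt_succ_self s)
    have hD := hTDR k' (d + 1) a I hIa
    -- derivations dual to the elements of I
    choose! Dv hDv1 hDv2 hDv3 using hD
    have hcard : 0 < I.card := by omega
    obtain ⟨γ, hγ0, hγ1, hγ2⟩ := hTGC {p | ∃ D : Derivation ℤ ℂ ℂ, Kil k' D ∧
      p = cd D (tf s d M b a)} d I.card
      (fun x => cd (Dv (I.equivFin.symm x)) (tf s d M b a))
      (fun x => ⟨_, hDv1 _ (I.equivFin.symm x).2, rfl⟩)
      (by
        rw [Fintype.linearIndependent_iff]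
        intro g hg x
        have h1 := congrArg (fun p : ℂ[X] => p.coeff ((I.equivFin.symm x : Fin (d + 1)) : ℕ)) hg
        simp only [finsetSum_coeff, coeff_smul, cd_coeff, tf_coeff_low hMd, coeff_zero,
          smul_eq_mul] at h1
        rw [Finset.sum_eq_single x] at h1
        · rw [hDv2 _ (I.equivFin.symm x).2, mul_one] at h1
          exact h1
        · intro y _ hy
          rw [hDv3 _ (I.equivFin.symm y).2 _ (I.equivFin.symm x).2, mul_zero]
          intro h2
          exact hy (I.equivFin.symm.injective (Subtype.ext h2.symm))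
        · intro h2
          exact absurd (Finset.mem_univ x) h2)
      (fun x => cd_natDegree_le b a k' hbk' _ (hDv1 _ (I.equivFin.symm x).2))
      hcard
    have hγs : γ.natDegree ≤ s := by omega
    have hgc : Gc k' (tf s d M b a) γ := by
      intro q hq
      refine hγ1 q ?_
      rintro p ⟨D, hD, rfl⟩
      exact hq D hD
    obtain ⟨i, hi, hi'⟩ := exists_large I hcard
    refine ⟨k', γ, d, M - s, d - s, hkk', ?_, ?_, ?_, ?_, ?_, ?_, ?_⟩
    · refine ⟨a i, fun h => ?_⟩
      have h1 : Transcendental k' (a i) := hIa.transcendental ⟨i, hi⟩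
      exact h1 (isAlgebraic_of_mem h)
    · refine ⟨hkc, hγ0, hgc.mono hkk', ?_, by omega⟩
      obtain ⟨D, hD1, hD2⟩ := hDER k (b j) (fun h => hj (hkc _ h))
      refine ⟨D, hD1, ?_⟩
      have h1 : M - (j : ℕ) ≤ (cd D (tf s d M b a)).natDegree :=
        le_natDegree_cd (by rw [tf_coeff_high hMd, hD2])
      have := j.2
      omega
    · refine ⟨hk2, hγ0, hgc, ?_, by omega⟩
      refine ⟨Dv i, hDv1 i hi, ?_⟩
      have h1 : (i : ℕ) ≤ (cd (Dv i) (tf s d M b a)).natDegree :=
        le_natDegree_cd (by rw [tf_coeff_low hMd, hDv2 i hi])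
      omega
    · intro D hD
      exact cd_natDegree_le b a k' hbk' D hD
    · refine hTTP k _ M s hkc (tf_natDegree_le hMd b a) (by omega) ⟨(j : ℕ), ?_, ?_⟩
      · have := j.2
        omega
      · rw [tf_coeff_high hMd]
        exact hj
    · omega
    · have h1 : r * (d + 2 * γ.natDegree) ≤ q := by
        rw [hq]
        exact Nat.mul_le_mul_left r (by omega)
      omega

end

end EVW
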