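import Pool.Agent.EVW.Api

/-!
# Squad EVW (MP_3e5173_lc): module ZDE, points over `ℂ(Z)`, derivations over `k'`
-/

set_option autoImplicit false

namespace EVW

open Polynomial EVR EVS

namespace ZDE_

theorem exists_D {k' : Subfield ℂ} {f γ : ℂ[X]} (hγ : γ ≠ 0) (hG : Gc k' f γ) :
    ∃ D : Derivation ℤ ℂ ℂ, Kil k' D ∧ cd D f ≠ 0 := by
  by_contra hcon
  push Not at hcon
  have h := hG (γ * X) fun D hD => by
    rw [hcon D hD]
    exact dvd_zero _
  have h2 := natDegree_le_of_dvd h hγ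
  rw [natDegree_mul_X hγ] at h2
  omega

theorem arith {lc d g x e r mn L N t : ℕ} (h1 : 1 ≤ lc) (h2 : lc ≤ mn) (h3 : mn ≤ r)
    (he : r * (d + 2 * g) < e) (hx : 1 ≤ x) (hL : lc * L ≤ lc * g + t + x * g)
    (hN : t + e * x ≤ N) : lc * (d + L) < N := by
  have a1 : lc * (d + 2 * g) ≤ r * (d + 2 * g) := Nat.mul_le_mul_right _ (h2.trans h3)
  have a2 : lc * (d + 2 * g) + 1 ≤ e := by omega
  have a3 : (lc * (d + 2 * g) + 1) * x ≤ e * x := Nat.mul_le_mul_right _ a2
  have a4 : lc * (d + g) ≤ x * (lc * (d + g)) := Nat.le_mul_of_pos_left _ (by omega)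
  have a5 : x * g ≤ x * (lc * g) := Nat.mul_le_mul_left _ (Nat.le_mul_of_pos_left _ (by omega))
  nlinarith

end ZDE_

open ZDE_ in
theorem zde_proof (hMTF : Stmt_MTF) (hZLE : Stmt_ZLE) : Stmt_ZDE := by
  intro k k' f γ d e r B u v m n hk hkk hTr hγ hG hd hLg he hmn hmr hP hB hB1 heq
  obtain ⟨D1, hD1, hD1f⟩ := exists_D hγ hG
  obtain ⟨L, hL, hLd, hLdeg⟩ := hZLE k f γ B (m.lcm n) hk hTr hγ (Gc.mono hkk hG) (lcm_pos hmn)
    hP hB
  obtain ⟨E1, hE1⟩ := exists_ext D1
  have hb := bev_ne_zero hTr hB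
  have hlt : m.lcm n * (d + L.natDegree) < (bev k f B).natDegree :=
    arith (lcm_pos hmn) (lcm_le hmn) hmr he hB1 hLdeg (hLg B hB)
  have hp1 : pz (cd D1 f) ≠ 0 := pz_ne_zero.2 hD1f
  have main : ∀ (D : Derivation ℤ ℂ ℂ) (E : Derivation ℤ K K), IsExt D E → Kil k' D →
      pz (cd D1 f) * E u = E (pz f) * E1 u ∧ pz (cd D1 f) * E v = E (pz f) * E1 v := by
    intro D E hE hD
    have hΔ : ∀ y : K, ((pz (cd D1 f)) • E - (E (pz f)) • E1) y =
        pz (cd D1 f) * E y - E (pz f) * E1 y := by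
      intro y
      rw [Derivation.sub_apply, Derivation.smul_apply, Derivation.smul_apply, smul_eq_mul,
        smul_eq_mul]
    have hΔp : ∀ p : ℂ[X], ((pz (cd D1 f)) • E - (E (pz f)) • E1) (pz p) =
        pz (cd D1 f * cd D p - cd D f * cd D1 p) := by
      intro p
      rw [hΔ, E_pz hE, E_pz hE, E_pz hE1, map_sub, map_mul, map_mul]
    have h := hMTF ((pz (cd D1 f)) • E - (E (pz f)) • E1) d (bev k f B) L u v m n hmn
      (fun p => ⟨_, hΔp p, fun _ => by
        have h1 : (cd D1 f * cd D p - cd D f * cd D1 p).natDegree ≤ p.natDegree + d := by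
          refine (natDegree_sub_le _ _).trans (max_le ?_ ?_)
          · refine natDegree_mul_le.trans ?_
            have := hd D1 hD1
            have := natDegree_cd_le D p
            omega
          · refine natDegree_mul_le.trans ?_
            have := hd D hD
            have := natDegree_cd_le D1 p
            omega
        exact_mod_cast h1⟩)
      (by
        rw [hΔp, cd_bev (hD.mono hkk), cd_bev (hD1.mono hkk)]
        have h0 : cd D1 f * (bev k f (derivative B) * cd D f) -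
          cd D f * (bev k f (derivative B) * cd D1 f) = 0 := by ring
        rw [h0, map_zero])
      hb hL hLd (by exact_mod_cast hlt) heq
    rw [hΔ, hΔ, sub_eq_zero, sub_eq_zero] at h
    exact h
  refine ⟨⟨E1 u / pz (cd D1 f), ?_⟩, ⟨E1 v / pz (cd D1 f), ?_⟩⟩
  · intro D E hE hD
    have h := (main D E hE hD).1
    rw [div_mul_eq_mul_div, eq_div_iff hp1]
    linear_combination h
  · intro D E hE hD
    have h := (main D E hE hD).2
    rw [div_mul_eq_mul_div, eq_div_iff hp1]
    linear_combination h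

end EVW
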