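import Pool.Agent.EVW.Api

/-!
# Squad EVW (MP_3e5173_lc): the loss at the points of the ground field
-/

set_option autoImplicit false

namespace EVW

open Polynomial EVR EVS

namespace ZLE_

theorem sum_rm_le (S : Finset ℂ) (p : ℂ[X]) (hp : p ≠ 0) :
    ∑ c ∈ S, p.rootMultiplicity c ≤ p.natDegree := by
  classical
  have h1 : ∑ c ∈ S, p.rootMultiplicity c ≤ ∑ c ∈ p.roots.toFinset, p.rootMultiplicity c := by
    have h2 : ∑ c ∈ S, p.rootMultiplicity c
        = ∑ c ∈ S.filter (fun c => c ∈ p.roots.toFinset), p.rootMultiplicity c := by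
      rw [Finset.sum_filter]
      refine Finset.sum_congr rfl fun c _ => ?_
      split_ifs with h
      · rfl
      · rw [Multiset.mem_toFinset, mem_roots hp] at h
        exact rootMultiplicity_eq_zero h
    rw [h2]
    exact Finset.sum_le_sum_of_subset fun c hc => (Finset.mem_filter.1 hc).2
  have h3 : ∑ c ∈ p.roots.toFinset, p.rootMultiplicity c = Multiset.card p.roots := by
    rw [← Multiset.toFinset_sum_count_eq]
    refine Finset.sum_congr rfl fun c _ => ?_
    rw [count_roots]
  calc ∑ c ∈ S, p.rootMultiplicity c ≤ Multiset.card p.roots := by rw [← h3]; exact h1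
    _ ≤ p.natDegree := card_roots' p

end ZLE_

open ZLE_ in
theorem zle_proof (hA : Stmt_DAE) (hB : Stmt_DBE) (hC : Stmt_DVC) : Stmt_ZLE := by
  classical
  intro k f γ B e hk hf hγ hG he hM hB0
  -- the good exponents
  let Good : ℂ → ℕ → Prop := fun c j => (X - C c) ^ (e * j) ∣ bev k f B
  let N : ℕ := (bev k f B).natDegree
  have hbd : ∀ c j, Good c j → j ≤ N := by
    intro c j hj
    have h1 := natDegree_le_of_dvd hj (bev_ne_zero hf hB0)
    rw [natDegree_pow, natDegree_X_sub_C, mul_one] at h1
    exact (Nat.le_mul_of_pos_left j he).trans h1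
  let J : ℂ → ℕ := fun c => Nat.findGreatest (fun j => Good c j) N
  have hJ : ∀ c, Good c (J c) := by
    intro c
    have h0 : Good c 0 := by
      show (X - C c) ^ (e * 0) ∣ bev k f B
      rw [mul_zero, pow_zero]
      exact one_dvd _
    exact Nat.findGreatest_spec (P := fun j => Good c j) (Nat.zero_le N) h0
  have hJle : ∀ c j, Good c j → j ≤ J c := fun c j hj =>
    Nat.le_findGreatest (hbd c j hj) hj
  let S : Finset ℂ := γ.roots.toFinset.filter (fun c => c ∈ k)
  let P : ℂ[X] := ∏ c ∈ S, (X - C c) ^ (J c)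
  have hPne : P ≠ 0 := by
    refine Finset.prod_ne_zero_iff.2 fun c _ => pow_ne_zero _ (X_sub_C_ne_zero c)
  have hPdeg : P.natDegree = ∑ c ∈ S, J c := by
    show (∏ c ∈ S, (X - C c) ^ (J c)).natDegree = _
    rw [natDegree_prod _ _ fun c _ => pow_ne_zero _ (X_sub_C_ne_zero c)]
    refine Finset.sum_congr rfl fun c _ => ?_
    rw [natDegree_pow, natDegree_X_sub_C, mul_one]
  have hLdeg : (γ * P).natDegree = γ.natDegree + ∑ c ∈ S, J c := by
    rw [natDegree_mul hγ hPne, hPdeg]
  -- the bound
  have key : ∑ c ∈ S, e * J c ≤ B.leadingCoeff.natDegree + B.natDegree * γ.natDegree := by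
    have hlc : B.leadingCoeff.map k.subtype ≠ 0 := by
      rw [Ne, Polynomial.map_eq_zero]
      exact leadingCoeff_ne_zero.2 hB0
    have h1 : ∀ c ∈ S, e * J c ≤ (B.leadingCoeff.map k.subtype).rootMultiplicity c +
        γ.rootMultiplicity c * B.natDegree := by
      intro c hc
      have hck : c ∈ k := (Finset.mem_filter.1 hc).2
      by_cases hfc : f.eval c ∈ k
      · obtain ⟨t, ht1, ht2, ht3⟩ := hC k f c hk hf hck hfc
        have h2 : (X - C c) ^ t ∣ γ := hG _ ht2
        have h3 : t ≤ γ.rootMultiplicity c := (le_rootMultiplicity_iff hγ).2 h2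
        have h4 : e * J c ≤ (bev k f B).rootMultiplicity c :=
          (le_rootMultiplicity_iff (bev_ne_zero hf hB0)).2 (hJ c)
        have h5 := ht3 B hB0
        have h6 : t * B.natDegree ≤ γ.rootMultiplicity c * B.natDegree :=
          Nat.mul_le_mul_right _ h3
        omega
      · have h2 := hB k f B c (J c) e hk he hM hB0 hck hfc (hJ c)
        rw [h2, mul_zero]
        exact Nat.zero_le _
    calc ∑ c ∈ S, e * J c
        ≤ ∑ c ∈ S, ((B.leadingCoeff.map k.subtype).rootMultiplicity c +
          γ.rootMultiplicity c * B.natDegree) := Finset.sum_le_sum h1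
      _ = ∑ c ∈ S, (B.leadingCoeff.map k.subtype).rootMultiplicity c +
          (∑ c ∈ S, γ.rootMultiplicity c) * B.natDegree := by
          rw [Finset.sum_add_distrib, Finset.sum_mul]
      _ ≤ (B.leadingCoeff.map k.subtype).natDegree + γ.natDegree * B.natDegree :=
          Nat.add_le_add (sum_rm_le S _ hlc) (Nat.mul_le_mul_right _ (sum_rm_le S γ hγ))
      _ = B.leadingCoeff.natDegree + B.natDegree * γ.natDegree := by
          rw [natDegree_map_eq_of_injective k.subtype.injective, mul_comm γ.natDegree]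
  refine ⟨γ * P, mul_ne_zero hγ hPne, ?_, ?_⟩
  · intro c j h4
    by_cases hck : c ∈ k
    · by_cases hfc : f.eval c ∈ k
      · obtain ⟨t, ht1, ht2, -⟩ := hC k f c hk hf hck hfc
        have h2 : (X - C c) ^ t ∣ γ := hG _ ht2
        have h3 : c ∈ S := by
          refine Finset.mem_filter.2 ⟨?_, hck⟩
          rw [Multiset.mem_toFinset, mem_roots hγ, ← dvd_iff_isRoot]
          exact (dvd_pow_self _ (by omega)).trans h2
        have h5 : (X - C c) ^ j ∣ (X - C c) ^ (J c) := pow_dvd_pow _ (hJle c j h4)
        exact (h5.trans (Finset.dvd_prod_of_mem (fun c => (X - C c) ^ (J c)) h3)).trans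
          (dvd_mul_left _ _)
      · have h2 := hB k f B c j e hk he hM hB0 hck hfc h4
        rw [h2, pow_zero]
        exact one_dvd _
    · have h2 : (X - C c) ^ j ∣ γ := hG _ fun D hD =>
        hA k f B c j e D hk hf he hM hB0 hck h4 hD
      exact h2.trans (dvd_mul_right _ _)
  · rw [← Finset.mul_sum] at key
    rw [hLdeg, Nat.mul_add]
    omega

end EVW
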