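import Pool.Agent.EVW.Base
import Pool.Agent.EVW.NUM
import Pool.Agent.EVW.LOF
import Pool.Agent.EVW.MTF
import Pool.Agent.EVW.CSF
import Pool.Agent.EVW.CNF
import Pool.Agent.EVW.DAE
import Pool.Agent.EVW.DBE
import Pool.Agent.EVW.ZLE
import Pool.Agent.EVW.ZDE
import Pool.Agent.EVW.RGE
import Pool.Agent.EVW.RIE
import Pool.Agent.EVW.MIE
import Pool.Agent.EVW.PTF
import Pool.Agent.EVW.TSR
import Pool.Agent.EVW.QNI
import Pool.Agent.EVW.QTI
import Pool.Agent.EVW.FLC
import Pool.Agent.EVW.CO3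
import Pool.Agent.EVW.SPR
import Pool.Agent.EVW.FR1
import Pool.Agent.EVW.INR
import Pool.Agent.EVW.FR2

/-!
# Squad EVW (MP_3e5173_lc): the theorems
-/

set_option autoImplicit false

namespace EVW

open Polynomial EVR EVS

theorem hMTF : Stmt_MTF := mtf_proof ord_proof hODR num_proof lof_proof

theorem hZLE : Stmt_ZLE := zle_proof (dae_proof pri_proof) dbe_proof dvc_proof

theorem hPTF : Stmt_PTF :=
  ptf_proof (csf_proof hMTF ddz_proof) (cnf_proof hMTF hKER) tr2_proof hGEN
    (zde_proof hMTF hZLE) (rie_proof hMTF hKER unv_proof (rge_proof pri_proof) hRG3) mie_proof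

theorem hTSR : Stmt_TSR :=
  tsr_proof der_proof hTIN hTDR tgc_proof ttp_proof dft_proof

theorem hCO3 : Stmt_CO3 := co3_proof col_proof

theorem hSPR : Stmt_SPR :=
  spr_proof rep_proof qfl_proof qft_proof tr2_proof hRA2 hPT2 hPTF dft_proof

theorem hINR : Stmt_INR :=
  inr_proof tr2_proof hRA2 hPT2 hPTF dft_proof hEXP qti_proof qni_proof

theorem first : Stmt_FR1 := fr1_proof flc_proof hCO3 hTSR dft_proof hSPR

theorem second : Stmt_FR2 := fr2_proof flc_proof hCO3 hTSR unv_proof dft_proof tr2_proof hINR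

end EVW
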