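import Pool.Agent.EVW.Stmts
import Pool.Agent.EVS.Api

/-!
# Squad EVW (MP_3e5173_lc): basic lemmas.  See also the Api files of EVR and EVS.
-/

set_option autoImplicit false

namespace EVW

open Polynomial EVR EVS

theorem TsR.tst {s r : ℕ} {k0 : Subfield ℂ} {f : ℂ[X]} (h : TsR s r k0 f) : Tst s k0 f := by
  intro k hk
  obtain ⟨k', γ, d, e, e', h1, h2, h3, h4, h5, h6, h7, -⟩ := h k hk
  exact ⟨k', γ, d, e, e', h1, h2, h3, h4, h5, h6, h7⟩

theorem com_mono {F F' : Subfield K} (h : F ≤ F') {ι : Type} {P : MvPolynomial ι K}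
    (hP : CoM F P) : CoM F' P := fun m => h (hP m)

theorem QIO.mono {F F' : Subfield K} (h : F ≤ F') {ι : Type} {Φ : (ι → K) → Prop}
    (hΦ : QIO F ι Φ) : QIO F' ι Φ := by
  induction hΦ with
  | zero P hP => exact QIO.zero P (com_mono h hP)
  | neg _ ih => exact QIO.neg ih
  | all _ ih => exact QIO.all ih

theorem lcm_pos {m n : ℕ} (h : m + n < m * n) : 1 ≤ m.lcm n := by
  have hm : 0 < m := by
    rcases Nat.eq_zero_or_pos m with rfl | h'
    · omega
    · exact h'
  have hn : 0 < n := by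
    rcases Nat.eq_zero_or_pos n with rfl | h'
    · simp at h
    · exact h'
  exact Nat.lcm_pos hm hn

theorem lcm_le {m n : ℕ} (h : m + n < m * n) : m.lcm n ≤ m * n :=
  Nat.le_of_dvd (by omega) (Nat.lcm_dvd_mul m n)

end EVW
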