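import Pool.Agent.EVR.DER
import Pool.Agent.EVR.EVD
import Pool.Agent.EVR.ORD
import Pool.Agent.EVR.ODR
import Pool.Agent.EVR.IDR
import Pool.Agent.EVR.LOC
import Pool.Agent.EVR.MML
import Pool.Agent.EVR.TDB
import Pool.Agent.EVR.LIN
import Pool.Agent.EVR.INT
import Pool.Agent.EVR.RCL
import Pool.Agent.EVR.REP
import Pool.Agent.EVR.QFL
import Pool.Agent.EVR.QFT
import Pool.Agent.EVR.COL
import Pool.Agent.EVS.DDZ
import Pool.Agent.EVS.MTG
import Pool.Agent.EVS.CST
import Pool.Agent.EVS.KER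
import Pool.Agent.EVS.CNZ
import Pool.Agent.EVS.GNL
import Pool.Agent.EVS.TR2
import Pool.Agent.EVS.DPA
import Pool.Agent.EVS.GNP
import Pool.Agent.EVS.GNI
import Pool.Agent.EVS.GEN
import Pool.Agent.EVS.RA2
import Pool.Agent.EVS.PRI
import Pool.Agent.EVS.DVA
import Pool.Agent.EVS.DVB
import Pool.Agent.EVS.DVC
import Pool.Agent.EVS.ZLL
import Pool.Agent.EVS.ZDR
import Pool.Agent.EVS.UNV
import Pool.Agent.EVS.RG1
import Pool.Agent.EVS.RG3
import Pool.Agent.EVS.RIG
import Pool.Agent.EVS.MIN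
import Pool.Agent.EVS.PT2
import Pool.Agent.EVS.DFT
import Pool.Agent.EVS.TIN
import Pool.Agent.EVS.TDR
import Pool.Agent.EVS.TGC
import Pool.Agent.EVS.TTP
import Pool.Agent.EVS.EXS
import Pool.Agent.EVS.EXP

/-!
# Squads EVR and EVS (MP_3e5173_lc): the general facts, put together
-/

set_option autoImplicit false

namespace EVW

open Polynomial EVR EVS

theorem hINT : Stmt_INT := int_proof lin_proof

theorem hRCL : Stmt_RCL := rcl_proof hINT

theorem hEVD : Stmt_EVD := evd_proof hEXT hCHR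

theorem hODR : Stmt_ODR := odr_proof ord_proof

theorem hMTG : Stmt_MTG := mtg_proof ord_proof hODR loc_proof

theorem hCST : Stmt_CST := cst_proof hMTG ddz_proof

theorem hKER : Stmt_KER := ker_proof der_proof hEVD hINT

theorem hCNZ : Stmt_CNZ := cnz_proof hMTG hKER

theorem hGNI : Stmt_GNI := gni_proof idr_proof hKER gnl_proof

theorem hGEN : Stmt_GEN := gen_proof (gnp_proof der_proof) hGNI tr2_proof

theorem hRA2 : Stmt_RA2 := ra2_proof dpa_proof hGEN

theorem hZLL : Stmt_ZLL := zll_proof (dva_proof pri_proof) dvb_proof dvc_proof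

theorem hZDR : Stmt_ZDR := zdr_proof hMTG hZLL

theorem hRG3 : Stmt_RG3 := rg3_proof hINT hRCL

theorem hRIG : Stmt_RIG := rig_proof hMTG hKER unv_proof (rg1_proof pri_proof) hRG3

theorem hPT2 : Stmt_PT2 :=
  pt2_proof hCST hCNZ tr2_proof hGEN hZDR hRIG (min_proof mml_proof)

theorem hTIN : Stmt_TIN := tin_proof tdb_proof

theorem hTDR : Stmt_TDR := tdr_proof der_proof

theorem hEXP : Stmt_EXP := exp_proof unv_proof exs_proof dft_proof tr2_proof

end EVW
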