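import Pool.Agent.EVW.Api
import Pool.Agent.EVR.COL
import Pool.Agent.EVS.CO2

/-!
# Squad EVW, module CO3: the parameters of an infinitary condition
-/

set_option autoImplicit false

namespace EVW

open Polynomial EVR EVS

noncomputable section

namespace CO3_

theorem coef {ι : Type} {P : MvPolynomial ι K} {F : Subfield K}
    (h : ((COL_.mc P : Finset K) : Set K) ⊆ F) : CoM F P := fun m => COL_.mc_mem h m

theorem qf {ι : Type} {Φ : (ι → K) → Prop} (h : QF ι Φ) :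
    ∃ S : Set K, S.Countable ∧ ∀ F : Subfield K, S ⊆ F → QFO F ι Φ := by
  obtain ⟨S, hS⟩ := COL_.qf h
  exact ⟨(S : Set K), S.countable_toSet, fun F hF => hS F hF⟩

theorem qi {ι : Type} {Φ : (ι → K) → Prop} (h : QI ι Φ) :
    ∃ S : Set K, S.Countable ∧ ∀ F : Subfield K, S ⊆ F → QIO F ι Φ := by
  induction h with
  | zero P =>
    exact ⟨(COL_.mc P : Set K), (COL_.mc P).countable_toSet, fun F hF => QIO.zero P (coef hF)⟩
  | neg _ ih =>
    obtain ⟨S, hc, hS⟩ := ih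
    exact ⟨S, hc, fun F hF => QIO.neg (hS F hF)⟩
  | all _ ih =>
    choose S hc hS using ih
    exact ⟨⋃ n, S n, Set.countable_iUnion hc, fun F hF =>
      QIO.all fun n => hS n F ((Set.subset_iUnion S n).trans hF)⟩

theorem bi {R N : ℕ} {ι : Type} {Φ : (ι → K) → Prop} (h : BI R N ι Φ) :
    ∃ S : Set K, S.Countable ∧ ∀ F : Subfield K, S ⊆ F → BIO F R N ι Φ := by
  induction h with
  | qf h =>
    obtain ⟨S, hc, hS⟩ := qi h
    exact ⟨S, hc, fun F hF => BIO.qf (hS F hF)⟩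
  | free h =>
    obtain ⟨S, hc, hS⟩ := qi h
    exact ⟨S, hc, fun F hF => BIO.free (hS F hF)⟩
  | neg _ ih =>
    obtain ⟨S, hc, hS⟩ := ih
    exact ⟨S, hc, fun F hF => BIO.neg (hS F hF)⟩
  | all _ ih =>
    choose S hc hS using ih
    exact ⟨⋃ n, S n, Set.countable_iUnion hc, fun F hF =>
      BIO.all fun n => hS n F ((Set.subset_iUnion S n).trans hF)⟩
  | cnt W _ ih =>
    obtain ⟨S, hc, hS⟩ := ih
    refine ⟨S ∪ Set.range W, hc.union (Set.countable_range W), fun F hF => ?_⟩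
    rw [Set.union_subset_iff] at hF
    exact BIO.cnt W (fun n => hF.2 (Set.mem_range_self n)) (hS F hF.1)
  | alg G _ ih =>
    obtain ⟨S, hc, hS⟩ := ih
    refine ⟨S ∪ (CO2_.gc G : Set K), hc.union (CO2_.gc G).countable_toSet, fun F hF => ?_⟩
    rw [Set.union_subset_iff] at hF
    exact BIO.alg G (CO2_.gc_mem hF.2) (hS F hF.1)
  | const _ ih =>
    obtain ⟨S, hc, hS⟩ := ih
    exact ⟨S, hc, fun F hF => BIO.const (hS F hF)⟩
  | ell A B _ ih =>
    obtain ⟨S, hc, hS⟩ := ih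
    refine ⟨(S ∪ (COL_.mc A : Set K)) ∪ (COL_.mc B : Set K),
      (hc.union (COL_.mc A).countable_toSet).union (COL_.mc B).countable_toSet, fun F hF => ?_⟩
    rw [Set.union_subset_iff, Set.union_subset_iff] at hF
    exact BIO.ell A B (coef hF.1.2) (coef hF.2) (hS F hF.1.1)
  | fer m n hmn hR C _ ih =>
    obtain ⟨S, hc, hS⟩ := ih
    refine ⟨S ∪ (COL_.mc C : Set K), hc.union (COL_.mc C).countable_toSet, fun F hF => ?_⟩
    rw [Set.union_subset_iff] at hF
    exact BIO.fer m n hmn hR C (coef hF.2) (hS F hF.1)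

theorem bj {R N : ℕ} {ι : Type} {Φ : (ι → K) → Prop} (h : BJ R N ι Φ) :
    ∃ S : Set K, S.Countable ∧ ∀ F : Subfield K, S ⊆ F → BJO F R N ι Φ := by
  induction h with
  | qf h =>
    obtain ⟨S, hc, hS⟩ := qf h
    exact ⟨S, hc, fun F hF => BJO.qf (hS F hF)⟩
  | free h =>
    obtain ⟨S, hc, hS⟩ := qf h
    exact ⟨S, hc, fun F hF => BJO.free (hS F hF)⟩
  | and _ _ ih ih' =>
    obtain ⟨S, hc, hS⟩ := ih
    obtain ⟨T, hd, hT⟩ := ih'
    refine ⟨S ∪ T, hc.union hd, fun F hF => ?_⟩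
    rw [Set.union_subset_iff] at hF
    exact BJO.and (hS F hF.1) (hT F hF.2)
  | any _ ih =>
    choose S hc hS using ih
    exact ⟨⋃ n, S n, Set.countable_iUnion hc, fun F hF =>
      BJO.any fun n => hS n F ((Set.subset_iUnion S n).trans hF)⟩
  | cnt W _ ih =>
    obtain ⟨S, hc, hS⟩ := ih
    refine ⟨S ∪ Set.range W, hc.union (Set.countable_range W), fun F hF => ?_⟩
    rw [Set.union_subset_iff] at hF
    exact BJO.cnt W (fun n => hF.2 (Set.mem_range_self n)) (hS F hF.1)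
  | alg G _ ih =>
    obtain ⟨S, hc, hS⟩ := ih
    refine ⟨S ∪ (CO2_.gc G : Set K), hc.union (CO2_.gc G).countable_toSet, fun F hF => ?_⟩
    rw [Set.union_subset_iff] at hF
    exact BJO.alg G (CO2_.gc_mem hF.2) (hS F hF.1)
  | const _ ih =>
    obtain ⟨S, hc, hS⟩ := ih
    exact ⟨S, hc, fun F hF => BJO.const (hS F hF)⟩
  | ell A B _ ih =>
    obtain ⟨S, hc, hS⟩ := ih
    refine ⟨(S ∪ (COL_.mc A : Set K)) ∪ (COL_.mc B : Set K),
      (hc.union (COL_.mc A).countable_toSet).union (COL_.mc B).countable_toSet, fun F hF => ?_⟩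
    rw [Set.union_subset_iff, Set.union_subset_iff] at hF
    exact BJO.ell A B (coef hF.1.2) (coef hF.2) (hS F hF.1.1)
  | fer m n hmn hR C _ ih =>
    obtain ⟨S, hc, hS⟩ := ih
    refine ⟨S ∪ (COL_.mc C : Set K), hc.union (COL_.mc C).countable_toSet, fun F hF => ?_⟩
    rw [Set.union_subset_iff] at hF
    exact BJO.fer m n hmn hR C (coef hF.2) (hS F hF.1)

/-- countably many elements of `ℂ(Z)` need countably many constants -/
theorem down (hCOL : Stmt_COL) {S : Set K} (hc : S.Countable) :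
    ∃ S' : Set ℂ, S'.Countable ∧ ∀ k : Subfield ℂ, S' ⊆ (k : Set ℂ) → S ⊆ (kZ k : Set K) := by
  have h1 : ∀ y : K, ∃ T : Finset ℂ, ∀ k : Subfield ℂ, (T : Set ℂ) ⊆ k → y ∈ kZ k := by
    intro y
    obtain ⟨T, hT⟩ := hCOL.2 {y}
    exact ⟨T, fun k hk => hT k hk (by simp)⟩
  choose T hT using h1
  refine ⟨⋃ y ∈ S, (T y : Set ℂ), hc.biUnion fun y _ => (T y).countable_toSet,
    fun k hk y hy => hT y k ?_⟩
  exact (Set.subset_biUnion_of_mem (u := fun y => (T y : Set ℂ)) hy).trans hk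

end CO3_

theorem co3_proof (hCOL : Stmt_COL) : Stmt_CO3 := by
  refine ⟨fun R N ι Φ h => ?_, fun R N ι Φ h => ?_⟩
  · obtain ⟨S, hc, hS⟩ := CO3_.bi h
    obtain ⟨S', hc', hS'⟩ := CO3_.down hCOL hc
    exact ⟨S', hc', fun k hk => hS (kZ k) (hS' k hk)⟩
  · obtain ⟨S, hc, hS⟩ := CO3_.bj h
    obtain ⟨S', hc', hS'⟩ := CO3_.down hCOL hc
    exact ⟨S', hc', fun k hk => hS (kZ k) (hS' k hk)⟩

end

end EVW
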