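import Pool.Agent.EVR.Defs

/-!
# Squad EVW (MP_3e5173_lc): infinitary conditions over `ℂ(Z)` with bounded quantifiers.
Definitions used in the final statements.
-/

set_option autoImplicit false

namespace EVW

open Polynomial EVR

noncomputable section

/-- Quantifier-free conditions on families of elements of `ℂ(Z)`, with parameters from `ℂ(Z)`;
infinite countable conjunctions are allowed. -/
inductive QI (ι : Type) : ((ι → K) → Prop) → Prop
  | zero (P : MvPolynomial ι K) : QI ι (fun y => MvPolynomial.eval y P = 0)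
  | neg {Φ : (ι → K) → Prop} (h : QI ι Φ) : QI ι (fun y => ¬ Φ y)
  | all {Φ : ℕ → (ι → K) → Prop} (h : ∀ n, QI ι (Φ n)) : QI ι (fun y => ∀ n, Φ n y)

/-- Conditions on families of elements of `ℂ(Z)`, closed under negation, countable conjunction and
quantifiers over: countable subsets of `ℂ(Z)` (`cnt`); roots of polynomials with coefficients
depending polynomially on the previous variables (`alg`); the field `ℂ` of constants (`const`); points over `ℂ(Z)` of elliptic curves
`v² = u³ + A(y) u + B(y)` (`ell`) and of curves `vᵐ = uⁿ + C(y)` of positive genus (`fer`). The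
number of nested quantifiers of the last three kinds is at most `N`, and `m * n ≤ R`.
One quantifier over all of `ℂ(Z)` is allowed directly in front of quantifier-free conditions. -/
inductive BI (R : ℕ) : ℕ → (ι : Type) → ((ι → K) → Prop) → Prop
  | qf {N : ℕ} {ι : Type} {Φ : (ι → K) → Prop} (h : QI ι Φ) : BI R N ι Φ
  | free {N : ℕ} {ι : Type} {Φ : (Option ι → K) → Prop} (h : QI (Option ι) Φ) :
      BI R N ι (fun y => ∃ t : K, Φ (ext y t))
  | neg {N : ℕ} {ι : Type} {Φ : (ι → K) → Prop} (h : BI R N ι Φ) : BI R N ι (fun y => ¬ Φ y)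
  | all {N : ℕ} {ι : Type} {Φ : ℕ → (ι → K) → Prop} (h : ∀ n, BI R N ι (Φ n)) :
      BI R N ι (fun y => ∀ n, Φ n y)
  | cnt {N : ℕ} {ι : Type} (W : ℕ → K) {Φ : (Option ι → K) → Prop} (h : BI R N (Option ι) Φ) :
      BI R N ι (fun y => ∃ n : ℕ, Φ (ext y (W n)))
  | alg {N : ℕ} {ι : Type} (G : Polynomial (MvPolynomial ι K)) {Φ : (Option ι → K) → Prop}
      (h : BI R N (Option ι) Φ) :
      BI R N ι (fun y => ∃ w : K, G.map (MvPolynomial.eval y) ≠ 0 ∧
        (G.map (MvPolynomial.eval y)).eval w = 0 ∧ Φ (ext y w))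
  | const {N : ℕ} {ι : Type} {Φ : (Option ι → K) → Prop} (h : BI R N (Option ι) Φ) :
      BI R (N + 1) ι (fun y => ∃ c : ℂ, Φ (ext y (cst c)))
  | ell {N : ℕ} {ι : Type} (A B : MvPolynomial ι K) {Φ : (Option (Option ι) → K) → Prop}
      (h : BI R N (Option (Option ι)) Φ) :
      BI R (N + 1) ι (fun y => ∃ u v : K,
        4 * (MvPolynomial.eval y A) ^ 3 + 27 * (MvPolynomial.eval y B) ^ 2 ≠ 0 ∧
        v ^ 2 = u ^ 3 + MvPolynomial.eval y A * u + MvPolynomial.eval y B ∧
        Φ (ext (ext y u) v))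
  | fer {N : ℕ} {ι : Type} (m n : ℕ) (hmn : m + n < m * n) (hR : m * n ≤ R)
      (C : MvPolynomial ι K) {Φ : (Option (Option ι) → K) → Prop}
      (h : BI R N (Option (Option ι)) Φ) :
      BI R (N + 1) ι (fun y => ∃ u v : K, MvPolynomial.eval y C ≠ 0 ∧
        v ^ m = u ^ n + MvPolynomial.eval y C ∧ Φ (ext (ext y u) v))

/-- The existential conditions of this kind, with countable disjunctions and finite
conjunctions. -/
inductive BJ (R : ℕ) : ℕ → (ι : Type) → ((ι → K) → Prop) → Prop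
  | qf {N : ℕ} {ι : Type} {Φ : (ι → K) → Prop} (h : QF ι Φ) : BJ R N ι Φ
  | free {N : ℕ} {ι : Type} {Φ : (Option ι → K) → Prop} (h : QF (Option ι) Φ) :
      BJ R N ι (fun y => ∃ t : K, Φ (ext y t))
  | and {N : ℕ} {ι : Type} {Φ Ψ : (ι → K) → Prop} (h : BJ R N ι Φ) (h' : BJ R N ι Ψ) :
      BJ R N ι (fun y => Φ y ∧ Ψ y)
  | any {N : ℕ} {ι : Type} {Φ : ℕ → (ι → K) → Prop} (h : ∀ n, BJ R N ι (Φ n)) :
      BJ R N ι (fun y => ∃ n, Φ n y)
  | cnt {N : ℕ} {ι : Type} (W : ℕ → K) {Φ : (Option ι → K) → Prop} (h : BJ R N (Option ι) Φ) :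
      BJ R N ι (fun y => ∃ n : ℕ, Φ (ext y (W n)))
  | alg {N : ℕ} {ι : Type} (G : Polynomial (MvPolynomial ι K)) {Φ : (Option ι → K) → Prop}
      (h : BJ R N (Option ι) Φ) :
      BJ R N ι (fun y => ∃ w : K, G.map (MvPolynomial.eval y) ≠ 0 ∧
        (G.map (MvPolynomial.eval y)).eval w = 0 ∧ Φ (ext y w))
  | const {N : ℕ} {ι : Type} {Φ : (Option ι → K) → Prop} (h : BJ R N (Option ι) Φ) :
      BJ R (N + 1) ι (fun y => ∃ c : ℂ, Φ (ext y (cst c)))
  | ell {N : ℕ} {ι : Type} (A B : MvPolynomial ι K) {Φ : (Option (Option ι) → K) → Prop}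
      (h : BJ R N (Option (Option ι)) Φ) :
      BJ R (N + 1) ι (fun y => ∃ u v : K,
        4 * (MvPolynomial.eval y A) ^ 3 + 27 * (MvPolynomial.eval y B) ^ 2 ≠ 0 ∧
        v ^ 2 = u ^ 3 + MvPolynomial.eval y A * u + MvPolynomial.eval y B ∧
        Φ (ext (ext y u) v))
  | fer {N : ℕ} {ι : Type} (m n : ℕ) (hmn : m + n < m * n) (hR : m * n ≤ R)
      (C : MvPolynomial ι K) {Φ : (Option (Option ι) → K) → Prop}
      (h : BJ R N (Option (Option ι)) Φ) :
      BJ R (N + 1) ι (fun y => ∃ u v : K, MvPolynomial.eval y C ≠ 0 ∧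
        v ^ m = u ^ n + MvPolynomial.eval y C ∧ Φ (ext (ext y u) v))

end

end EVW
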