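import Pool.Agent.EVW.FR2
import Pool.Agent.EVW.All

/-!
# Squad EVW (MP_3e5173_lc), module FRG: conditions cannot separate a test polynomial from its
images under countably many fractional linear maps
-/

set_option autoImplicit false

namespace EVW

open Polynomial EVR EVS

noncomputable section

namespace FRG_

open FR2_

/-- the value at `g` -/
def wv (k : Subfield ℂ) (g : K) (G : Polynomial (Polynomial k)) : K :=
  G.eval₂ (io k) g

theorem wv_mem {k : Subfield ℂ} {f : ℂ[X]} {g : K} (hg : g ∈ fld k f)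
    (G : Polynomial (Polynomial k)) : wv k g G ∈ fld k f := by
  unfold wv
  rw [eval₂_eq_sum_range]
  exact Subfield.sum_mem _ fun i _ => mul_mem (kZ_le_fld k f (io_mem k _)) (pow_mem hg i)

theorem wv_ne_zero {k : Subfield ℂ} {g : K} (h : Tr (kZ k) g)
    {G : Polynomial (Polynomial k)} (hG : G ≠ 0) : wv k g G ≠ 0 := by
  intro h0
  have h1 : G.map (io k) = 0 := by
    refine h _ (fun n => ?_) ?_
    · rw [coeff_map]
      exact io_mem k _
    · rw [eval_map]
      exact h0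
  apply hG
  rwa [Polynomial.map_eq_zero_iff (io_inj k)] at h1

/-- the main step: invariance under a fractional linear map -/
theorem main {s r N : ℕ} {k : Subfield ℂ} {f : ℂ[X]} (hINR : Stmt_INR)
    (hkc : ¬ (k : Set ℂ).Countable) (hk : Clo k) (hD0 : Dft 0 k k) (hT : TsR s r k f)
    (hs : 2 * N ≤ s) (hTr : Tr (kZ k) (pz f)) {Φ : (Unit → K) → Prop}
    (hB : BIO (kZ k) r N Unit Φ) {a b c d : K} (ha : a ∈ kZ k) (hb : b ∈ kZ k) (hc : c ∈ kZ k)
    (hd : d ∈ kZ k) (hdet : a * d ≠ b * c) :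
    c * pz f + d ≠ 0 ∧
      (Φ (fun _ => pz f) ↔ Φ (fun _ => (a * pz f + b) / (c * pz f + d))) := by
  have hfa : ¬ IsAlgebraic (kZ k) (pz f) := tr_iff.1 hTr
  have hden : c * pz f + d ≠ 0 := by
    intro h0
    by_cases hc0 : c = 0
    · subst hc0
      rw [zero_mul, zero_add] at h0
      subst h0
      apply hdet
      rw [mul_zero, mul_zero]
    · apply hfa
      have h1 : pz f = -d / c := by
        rw [eq_div_iff hc0]
        linear_combination h0
      rw [h1]
      exact isAlgebraic_of_mem' (div_mem (neg_mem hd) hc)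
  refine ⟨hden, ?_⟩
  set g : K := (a * pz f + b) / (c * pz f + d) with hg
  have hgm : g * (c * pz f + d) = a * pz f + b := by
    rw [hg, div_mul_cancel₀ _ hden]
  have hgf : g ∈ fld k f := by
    rw [hg]
    exact div_mem (add_mem (mul_mem (kZ_le_fld k f ha) (pz_mem_fld k f)) (kZ_le_fld k f hb))
      (add_mem (mul_mem (kZ_le_fld k f hc) (pz_mem_fld k f)) (kZ_le_fld k f hd))
  have hac : a - c * g ≠ 0 := by
    intro h0
    have h1 : a = c * g := sub_eq_zero.1 h0
    have h2 : g * d = b := by linear_combination hgm + h0 * pz f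
    apply hdet
    rw [h1, ← h2]
    ring
  have hback : pz f = (d * g - b) / (a - c * g) := by
    rw [eq_div_iff hac]
    linear_combination -hgm
  have hTg : Tr (kZ k) g := by
    rw [tr_iff]
    intro h
    apply hfa
    have e1 : ∀ x ∈ kZ k, IsAlgebraic (kZ k) x := fun x hx => isAlgebraic_of_mem' hx
    rw [hback, div_eq_mul_inv]
    exact (((e1 d hd).mul h).sub (e1 b hb)).mul ((e1 a ha).sub ((e1 c hc).mul h)).inv
  obtain ⟨θ, hθ⟩ := unv_proof k f k.subtype (RatFunc.X : K) g hTr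
    (fun G hG => wv_ne_zero hTg hG)
  have hθ' : ∀ G : Polynomial (Polynomial k), θ ⟨pz (bev k f G), pz_bev_mem k f G⟩ = wv k g G :=
    fun G => hθ G _
  have hpz : ∀ P : Polynomial k, θ ⟨pz (bev k f (C P)), pz_bev_mem k f (C P)⟩ =
      pz (P.map k.subtype) := by
    intro P
    rw [hθ' (C P)]
    unfold wv
    rw [eval₂_C, io_apply]
  have hfix : ∀ (x : K) (hx : x ∈ kZ k), θ ⟨x, kZ_le_fld k f hx⟩ = x := by
    intro x hx
    obtain ⟨P, Q, hQ, hxPQ⟩ := mem_kZ_iff.1 hx
    have e1 : (⟨x, kZ_le_fld k f hx⟩ : fld k f) =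
        (⟨pz (bev k f (C P)), pz_bev_mem k f (C P)⟩ : fld k f) /
          ⟨pz (bev k f (C Q)), pz_bev_mem k f (C Q)⟩ := by
      apply Subtype.ext
      show x = pz (bev k f (C P)) / pz (bev k f (C Q))
      rw [bev_C, bev_C]
      exact hxPQ
    rw [e1, map_div₀, hpz, hpz]
    exact hxPQ.symm
  have hθf : θ ⟨pz (bev k f X), pz_bev_mem k f X⟩ = g := by
    rw [hθ' X]
    unfold wv
    rw [eval₂_X]
  have hPar : Par 0 k f (fld k f).subtype θ := by
    refine ⟨fun x hx => ⟨⟨x, kZ_le_fld k f hx⟩, rfl, hfix x hx⟩, k, k, hk, hk, le_refl k,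
      le_refl k, hD0, hD0, ?_, ?_, ?_⟩
    · intro x
      constructor
      · intro hx
        exact ⟨⟨x, hx⟩, rfl⟩
      · rintro ⟨y, rfl⟩
        exact y.2
    · intro x
      constructor
      · intro hx
        have h1 : fld k f ≤ θ.fieldRange := by
          refine Subfield.closure_le.2 ?_
          rintro y (hy | hy)
          · exact ⟨⟨y, kZ_le_fld k f hy⟩, hfix y hy⟩
          · rw [Set.mem_singleton_iff] at hy
            subst hy
            have hk' : ∀ z ∈ kZ k, z ∈ θ.fieldRange := fun z hz =>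
              ⟨⟨z, kZ_le_fld k f hz⟩, hfix z hz⟩
            have hg' : g ∈ θ.fieldRange := ⟨_, hθf⟩
            show pz f ∈ θ.fieldRange
            rw [hback]
            exact div_mem (sub_mem (mul_mem (hk' d hd) hg') (hk' b hb))
              (sub_mem (hk' a ha) (mul_mem (hk' c hc) hg'))
        obtain ⟨y, hy⟩ := h1 hx
        exact ⟨y, hy⟩
      · rintro ⟨y, rfl⟩
        obtain ⟨P, Q, hQ, rfl⟩ := exists_frac y
        rw [map_div₀, hθ', hθ']
        exact div_mem (wv_mem hgf P) (wv_mem hgf Q)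
    · intro x
      constructor
      · rintro ⟨e, he, hx⟩
        refine ⟨e, he, ?_⟩
        have h1 : x = ⟨cst e, kZ_le_fld k f (cst_mem_kZ he)⟩ := Subtype.ext hx
        rw [h1]
        exact hfix _ (cst_mem_kZ he)
      · rintro ⟨e, he, hx⟩
        refine ⟨e, he, ?_⟩
        have h1 : x = ⟨cst e, kZ_le_fld k f (cst_mem_kZ he)⟩ := by
          apply θ.injective
          rw [hx, hfix _ (cst_mem_kZ he)]
        rw [h1]
        rfl
  have hmain := hINR s r k f hkc hT N Unit Φ hB 0 (by omega) (fld k f) (fld k f).subtype θ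
    hPar (fun _ => ⟨pz (bev k f X), pz_bev_mem k f X⟩)
  have e1 : (fld k f).subtype (⟨pz (bev k f X), pz_bev_mem k f X⟩ : fld k f) = pz f := by
    show pz (bev k f X) = pz f
    rw [bev_X]
  rw [e1, hθf] at hmain
  exact hmain

end FRG_

open FRG_ in
/-- **Invariance under fractional linear maps.** -/
theorem third (R N : ℕ) (Φ : (Unit → K) → Prop) (hΦ : BI R N Unit Φ) (a b c d : ℕ → K)
    (hdet : ∀ n, a n * d n ≠ b n * c n) :
    ∃ f : ℂ[X], f.eval 0 ≠ 0 ∧ 0 < f.natDegree ∧ ∀ n, c n * pz f + d n ≠ 0 ∧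
      (Φ (fun _ => pz f) ↔ Φ (fun _ => (a n * pz f + b n) / (c n * pz f + d n))) := by
  classical
  obtain ⟨S, hSc, hS⟩ := hCO3.1 R N Unit Φ hΦ
  have hcol : ∀ n, ∃ S' : Finset ℂ, ∀ k : Subfield ℂ, (S' : Set ℂ) ⊆ k →
      (({a n, b n, c n, d n} : Finset K) : Set K) ⊆ kZ k :=
    fun n => col_proof.2 {a n, b n, c n, d n}
  choose S' hS' using hcol
  obtain ⟨k, hk, hkc, hkS, hind⟩ := flc_proof (S ∪ ⋃ n, (S' n : Set ℂ))
    (hSc.union (Set.countable_iUnion fun n => (S' n).countable_toSet))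
  have hB : BIO (kZ k) R N Unit Φ := hS k (fun x hx => hkS (Or.inl hx))
  have hmem : ∀ n, a n ∈ kZ k ∧ b n ∈ kZ k ∧ c n ∈ kZ k ∧ d n ∈ kZ k := by
    intro n
    have h := hS' n k (fun x hx => hkS (Or.inr (Set.mem_iUnion.2 ⟨n, hx⟩)))
    refine ⟨h ?_, h ?_, h ?_, h ?_⟩ <;> simp
  obtain ⟨f, hf0, hT⟩ := hTSR k hk hind (2 * N) R
  have hD0 : Dft 0 k k := dft_proof.2.2.2 k hk
  have hDN : Dft (2 * N) k k := dft_proof.1 0 (2 * N) k k (Nat.zero_le _) hD0
  obtain ⟨k', γ, d', e, e', -, -, hG, -⟩ := hT k hDN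
  have hbig : 0 < f.natDegree := by
    obtain ⟨D, hD1, hD2⟩ := hG.big
    have h1 := natDegree_cd_le D f
    have h2 := hG.lt
    omega
  have hD : ∃ D : Derivation ℤ ℂ ℂ, Kil k D ∧ cd D f ≠ 0 := by
    obtain ⟨D, hD1, hD2⟩ := hG.big
    refine ⟨D, hD1, fun h0 => ?_⟩
    rw [h0, natDegree_zero] at hD2
    have := hG.lt
    omega
  have hTr : Tr (kZ k) (pz f) := tr2_proof k f hD
  refine ⟨f, hf0, hbig, fun n => ?_⟩
  obtain ⟨h1, h2, h3, h4⟩ := hmem n
  exact main hINR hkc hk hD0 hT (le_refl _) hTr hB h1 h2 h3 h4 (hdet n)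

end

end EVW
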