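import Pool.Agent.EVW.Defs
import Pool.Agent.EVS.Stmts

/-!
# Squad EVW (MP_3e5173_lc): statements of the modules.  Recipes: /team-store/MP_3e5173_EVT.md
-/

set_option autoImplicit false

namespace EVW

open Polynomial EVR EVS

noncomputable section

/-! ## Auxiliary definitions -/

/-- `QI` with parameters from `F` -/
inductive QIO (F : Subfield K) (ι : Type) : ((ι → K) → Prop) → Prop
  | zero (P : MvPolynomial ι K) (hP : CoM F P) :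
      QIO F ι (fun y => MvPolynomial.eval y P = 0)
  | neg {Φ : (ι → K) → Prop} (h : QIO F ι Φ) : QIO F ι (fun y => ¬ Φ y)
  | all {Φ : ℕ → (ι → K) → Prop} (h : ∀ n, QIO F ι (Φ n)) : QIO F ι (fun y => ∀ n, Φ n y)

/-- `BI` with parameters from `F` -/
inductive BIO (F : Subfield K) (R : ℕ) : ℕ → (ι : Type) → ((ι → K) → Prop) → Prop
  | qf {N : ℕ} {ι : Type} {Φ : (ι → K) → Prop} (h : QIO F ι Φ) : BIO F R N ι Φ
  | free {N : ℕ} {ι : Type} {Φ : (Option ι → K) → Prop} (h : QIO F (Option ι) Φ) :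
      BIO F R N ι (fun y => ∃ t : K, Φ (ext y t))
  | neg {N : ℕ} {ι : Type} {Φ : (ι → K) → Prop} (h : BIO F R N ι Φ) :
      BIO F R N ι (fun y => ¬ Φ y)
  | all {N : ℕ} {ι : Type} {Φ : ℕ → (ι → K) → Prop} (h : ∀ n, BIO F R N ι (Φ n)) :
      BIO F R N ι (fun y => ∀ n, Φ n y)
  | cnt {N : ℕ} {ι : Type} (W : ℕ → K) (hW : ∀ n, W n ∈ F) {Φ : (Option ι → K) → Prop}
      (h : BIO F R N (Option ι) Φ) : BIO F R N ι (fun y => ∃ n : ℕ, Φ (ext y (W n)))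
  | alg {N : ℕ} {ι : Type} (G : Polynomial (MvPolynomial ι K)) (hG : ∀ i, CoM F (G.coeff i))
      {Φ : (Option ι → K) → Prop} (h : BIO F R N (Option ι) Φ) :
      BIO F R N ι (fun y => ∃ w : K, G.map (MvPolynomial.eval y) ≠ 0 ∧
        (G.map (MvPolynomial.eval y)).eval w = 0 ∧ Φ (ext y w))
  | const {N : ℕ} {ι : Type} {Φ : (Option ι → K) → Prop} (h : BIO F R N (Option ι) Φ) :
      BIO F R (N + 1) ι (fun y => ∃ c : ℂ, Φ (ext y (cst c)))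
  | ell {N : ℕ} {ι : Type} (A B : MvPolynomial ι K) (hA : CoM F A) (hB : CoM F B)
      {Φ : (Option (Option ι) → K) → Prop} (h : BIO F R N (Option (Option ι)) Φ) :
      BIO F R (N + 1) ι (fun y => ∃ u v : K,
        4 * (MvPolynomial.eval y A) ^ 3 + 27 * (MvPolynomial.eval y B) ^ 2 ≠ 0 ∧
        v ^ 2 = u ^ 3 + MvPolynomial.eval y A * u + MvPolynomial.eval y B ∧
        Φ (ext (ext y u) v))
  | fer {N : ℕ} {ι : Type} (m n : ℕ) (hmn : m + n < m * n) (hR : m * n ≤ R)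
      (C : MvPolynomial ι K) (hC : CoM F C) {Φ : (Option (Option ι) → K) → Prop}
      (h : BIO F R N (Option (Option ι)) Φ) :
      BIO F R (N + 1) ι (fun y => ∃ u v : K, MvPolynomial.eval y C ≠ 0 ∧
        v ^ m = u ^ n + MvPolynomial.eval y C ∧ Φ (ext (ext y u) v))

/-- `BJ` with parameters from `F` -/
inductive BJO (F : Subfield K) (R : ℕ) : ℕ → (ι : Type) → ((ι → K) → Prop) → Prop
  | qf {N : ℕ} {ι : Type} {Φ : (ι → K) → Prop} (h : QFO F ι Φ) : BJO F R N ι Φ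
  | free {N : ℕ} {ι : Type} {Φ : (Option ι → K) → Prop} (h : QFO F (Option ι) Φ) :
      BJO F R N ι (fun y => ∃ t : K, Φ (ext y t))
  | and {N : ℕ} {ι : Type} {Φ Ψ : (ι → K) → Prop} (h : BJO F R N ι Φ) (h' : BJO F R N ι Ψ) :
      BJO F R N ι (fun y => Φ y ∧ Ψ y)
  | any {N : ℕ} {ι : Type} {Φ : ℕ → (ι → K) → Prop} (h : ∀ n, BJO F R N ι (Φ n)) :
      BJO F R N ι (fun y => ∃ n, Φ n y)
  | cnt {N : ℕ} {ι : Type} (W : ℕ → K) (hW : ∀ n, W n ∈ F) {Φ : (Option ι → K) → Prop}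
      (h : BJO F R N (Option ι) Φ) : BJO F R N ι (fun y => ∃ n : ℕ, Φ (ext y (W n)))
  | alg {N : ℕ} {ι : Type} (G : Polynomial (MvPolynomial ι K)) (hG : ∀ i, CoM F (G.coeff i))
      {Φ : (Option ι → K) → Prop} (h : BJO F R N (Option ι) Φ) :
      BJO F R N ι (fun y => ∃ w : K, G.map (MvPolynomial.eval y) ≠ 0 ∧
        (G.map (MvPolynomial.eval y)).eval w = 0 ∧ Φ (ext y w))
  | const {N : ℕ} {ι : Type} {Φ : (Option ι → K) → Prop} (h : BJO F R N (Option ι) Φ) :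
      BJO F R (N + 1) ι (fun y => ∃ c : ℂ, Φ (ext y (cst c)))
  | ell {N : ℕ} {ι : Type} (A B : MvPolynomial ι K) (hA : CoM F A) (hB : CoM F B)
      {Φ : (Option (Option ι) → K) → Prop} (h : BJO F R N (Option (Option ι)) Φ) :
      BJO F R (N + 1) ι (fun y => ∃ u v : K,
        4 * (MvPolynomial.eval y A) ^ 3 + 27 * (MvPolynomial.eval y B) ^ 2 ≠ 0 ∧
        v ^ 2 = u ^ 3 + MvPolynomial.eval y A * u + MvPolynomial.eval y B ∧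
        Φ (ext (ext y u) v))
  | fer {N : ℕ} {ι : Type} (m n : ℕ) (hmn : m + n < m * n) (hR : m * n ≤ R)
      (C : MvPolynomial ι K) (hC : CoM F C) {Φ : (Option (Option ι) → K) → Prop}
      (h : BJO F R N (Option (Option ι)) Φ) :
      BJO F R (N + 1) ι (fun y => ∃ u v : K, MvPolynomial.eval y C ≠ 0 ∧
        v ^ m = u ^ n + MvPolynomial.eval y C ∧ Φ (ext (ext y u) v))

/-- no irreducible `p` has `pᵉ ∣ B` -/
def Pfr {R : Type} [CommRing R] (e : ℕ) (B : R) : Prop := ∀ p : R, Irreducible p → ¬ p ^ e ∣ B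

/-- the test polynomials -/
def TsR (s r : ℕ) (k0 : Subfield ℂ) (f : ℂ[X]) : Prop :=
  ∀ k : Subfield ℂ, Dft s k0 k → ∃ (k' : Subfield ℂ) (γ : ℂ[X]) (d e e' : ℕ),
    k ≤ k' ∧ (∃ ζ : ℂ, ζ ∉ k') ∧ Gd k f γ e ∧ Gd k' f γ e' ∧
    (∀ D : Derivation ℤ ℂ ℂ, Kil k' D → (cd D f).natDegree ≤ d) ∧
    Lg k f e ∧ 6 * d + 7 * γ.natDegree < e ∧ r * (d + 2 * γ.natDegree) < e

/-! ## A. The curves `vᵐ = uⁿ + b` -/

/-- the differential -/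
def Stmt_NUM : Prop :=
  ∀ m n : ℕ, m + n < m * n → ∃ i j : ℕ,
    (j + 1) * (m.lcm n / m) + (i + 1) * (m.lcm n / n) + 1 = m.lcm n

/-- the local lemma -/
def Stmt_LOF : Prop :=
  ∀ (w : K → ℤ) (E : Derivation ℤ K K) (b u v : K) (m n i j : ℕ),
    (∀ x y : K, x ≠ 0 → y ≠ 0 → w (x * y) = w x + w y) →
    (∀ x y : K, x ≠ 0 → y ≠ 0 → x + y ≠ 0 → min (w x) (w y) ≤ w (x + y)) →
    (∀ N : ℕ, N ≠ 0 → w (N : K) = 0) → (∀ y : K, E y ≠ 0 → w y ≤ w (E y)) →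
    m + n < m * n → (j + 1) * (m.lcm n / m) + (i + 1) * (m.lcm n / n) + 1 = m.lcm n →
    E b = 0 → b ≠ 0 → u ≠ 0 → v ≠ 0 → v ^ m = u ^ n + b → E u ≠ 0 →
    (m.lcm n : ℤ) * (m * w v - (j + 1) * w v - i * w u - w (E u)) ≤ w b

/-- the main lemma on solutions. Uses ORD, ODR, NUM, LOF -/
def Stmt_MTF : Prop :=
  ∀ (E : Derivation ℤ K K) (l : ℤ) (b L : ℂ[X]) (u v : K) (m n : ℕ), m + n < m * n →
    (∀ p : ℂ[X], ∃ q : ℂ[X], E (pz p) = pz q ∧ (q ≠ 0 → (q.natDegree : ℤ) ≤ p.natDegree + l)) →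
    E (pz b) = 0 → b ≠ 0 → L ≠ 0 →
    (∀ (c : ℂ) (j : ℕ), (X - C c) ^ (m.lcm n * j) ∣ b → (X - C c) ^ j ∣ L) →
    (m.lcm n : ℤ) * (l + L.natDegree) < b.natDegree →
    v ^ m = u ^ n + pz b → E u = 0 ∧ E v = 0

/-- points of constant curves are constant. Uses MTF, DDZ -/
def Stmt_CSF : Prop :=
  ∀ (β : ℂ) (u v : K) (m n : ℕ), m + n < m * n → β ≠ 0 → v ^ m = u ^ n + cst β →
    ∃ u0 v0 : ℂ, u = cst u0 ∧ v = cst v0

/-- equations over `k[Z]`. Uses MTF, KER -/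
def Stmt_CNF : Prop :=
  ∀ (k : Subfield ℂ) (b : Polynomial k) (u v : K) (m n : ℕ), Clo k → m + n < m * n →
    Pfr (m.lcm n) (C b : Polynomial (Polynomial k)) → b ≠ 0 → 0 < b.natDegree →
    v ^ m = u ^ n + pz (b.map k.subtype) → u ∈ kZ k ∧ v ∈ kZ k

/-- points not over `k`. Uses PRI -/
def Stmt_DAE : Prop :=
  ∀ (k : Subfield ℂ) (f : ℂ[X]) (B : Polynomial (Polynomial k)) (c : ℂ) (j e : ℕ)
    (D : Derivation ℤ ℂ ℂ), Clo k → Tr (kZ k) (pz f) → 1 ≤ e → Pfr e B → B ≠ 0 → c ∉ k →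
    (X - C c) ^ (e * j) ∣ bev k f B → Kil k D → (X - C c) ^ j ∣ cd D f

/-- points of the first kind over `k` -/
def Stmt_DBE : Prop :=
  ∀ (k : Subfield ℂ) (f : ℂ[X]) (B : Polynomial (Polynomial k)) (c : ℂ) (j e : ℕ), Clo k →
    1 ≤ e → Pfr e B → B ≠ 0 → c ∈ k → f.eval c ∉ k →
    (X - C c) ^ (e * j) ∣ bev k f B → j = 0

/-- the loss. Uses DAE, DBE, DVC -/
def Stmt_ZLE : Prop :=
  ∀ (k : Subfield ℂ) (f γ : ℂ[X]) (B : Polynomial (Polynomial k)) (e : ℕ), Clo k →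
    Tr (kZ k) (pz f) → γ ≠ 0 → Gc k f γ → 1 ≤ e → Pfr e B → B ≠ 0 →
    ∃ L : ℂ[X], L ≠ 0 ∧
      (∀ (c : ℂ) (j : ℕ), (X - C c) ^ (e * j) ∣ bev k f B → (X - C c) ^ j ∣ L) ∧
      e * L.natDegree ≤ e * γ.natDegree + B.leadingCoeff.natDegree + B.natDegree * γ.natDegree

/-- points over `ℂ(Z)`, derivations over `k'`. Uses MTF, ZLE -/
def Stmt_ZDE : Prop :=
  ∀ (k k' : Subfield ℂ) (f γ : ℂ[X]) (d e r : ℕ) (B : Polynomial (Polynomial k)) (u v : K)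
    (m n : ℕ), Clo k → k ≤ k' → Tr (kZ k) (pz f) → γ ≠ 0 → Gc k' f γ →
    (∀ D : Derivation ℤ ℂ ℂ, Kil k' D → (cd D f).natDegree ≤ d) → Lg k f e →
    r * (d + 2 * γ.natDegree) < e → m + n < m * n → m * n ≤ r → Pfr (m.lcm n) B → B ≠ 0 →
    1 ≤ B.natDegree → v ^ m = u ^ n + pz (bev k f B) →
    (∃ l : K, DP k' f u l) ∧ ∃ l : K, DP k' f v l

/-- no multiple roots at a generic `z`. Uses PRI -/
def Stmt_RGE : Prop :=
  ∀ (k : Subfield ℂ) (z c : ℂ) (B : Polynomial (Polynomial k)) (e : ℕ), Clo k → z ∉ k →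
    Pfr e B → B ≠ 0 → ¬ (X - C c) ^ e ∣ ev1 k z B

/-- rigidity. Uses MTF, KER, UNV, RGE, RG3 -/
def Stmt_RIE : Prop :=
  ∀ (k k' : Subfield ℂ) (f : ℂ[X]) (B : Polynomial (Polynomial k)) (u v : K) (m n : ℕ), Clo k →
    Clo k' → k ≤ k' → (∃ z : ℂ, z ∉ k') → Tr (kZ k') (pz f) → m + n < m * n →
    Pfr (m.lcm n) B → B ≠ 0 → 1 ≤ B.natDegree →
    u ∈ fld k' f → v ∈ fld k' f → v ^ m = u ^ n + pz (bev k f B) →
    u ∈ fld k f ∧ v ∈ fld k f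

/-- minimal models -/
def Stmt_MIE : Prop :=
  ∀ (k : Subfield ℂ) (f : ℂ[X]) (e : ℕ) (B : K), Tr (kZ k) (pz f) → 1 ≤ e → B ∈ fld k f →
    B ≠ 0 → ∃ (r : K) (B' : Polynomial (Polynomial k)), r ∈ fld k f ∧ r ≠ 0 ∧ Pfr e B' ∧
      B = r ^ e * pz (bev k f B')

/-- points over `k(Z)(f)`. Uses CSF, CNF, TR2, GEN, ZDE, RIE, MIE -/
def Stmt_PTF : Prop :=
  ∀ (s r : ℕ) (k0 k : Subfield ℂ) (f : ℂ[X]) (B u v : K) (m n : ℕ), TsR s r k0 f →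
    Dft s k0 k → m + n < m * n → m * n ≤ r → B ∈ fld k f → B ≠ 0 → v ^ m = u ^ n + B →
    (u ∈ fld k f ∧ v ∈ fld k f) ∨
      ∃ (ρ : K) (β u0 v0 : ℂ), ρ ∈ fld k f ∧ ρ ≠ 0 ∧ β ∈ k ∧ B = ρ ^ (m.lcm n) * cst β ∧
        u = ρ ^ (m.lcm n / n) * cst u0 ∧ v = ρ ^ (m.lcm n / m) * cst v0

/-- existence of test polynomials. Uses DER, TIN, TDR, TGC, TTP, DFT -/
def Stmt_TSR : Prop :=
  ∀ k0 : Subfield ℂ, Clo k0 → (∀ n : ℕ, ∃ a : Fin n → ℂ, AlgebraicIndependent k0 a) →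
    ∀ s r : ℕ, ∃ f : ℂ[X], f.eval 0 ≠ 0 ∧ TsR s r k0 f

/-! ## B. Conditions -/

/-- invariance of quantifier-free conditions -/
def Stmt_QNI : Prop :=
  ∀ (F : Subfield K) (X : Type) [Field X] (ε1 ε2 : X →+* K),
    (∀ g ∈ F, ∃ x, ε1 x = g ∧ ε2 x = g) → ∀ (ι : Type) (Φ : (ι → K) → Prop), QIO F ι Φ →
    ∀ y : ι → X, Φ (fun i => ε1 (y i)) ↔ Φ (fun i => ε2 (y i))

/-- a transcendental element can be replaced -/
def Stmt_QTI : Prop :=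
  ∀ (L : Subfield K) (ι : Type) (Φ : (Option ι → K) → Prop), QIO L (Option ι) Φ →
    ∀ (y : ι → K) (t : K), (∀ i, y i ∈ L) → ¬ IsAlgebraic L t →
    {t' : K | ¬ (Φ (ext y t') ↔ Φ (ext y t))}.Countable

/-- good constant fields -/
def Stmt_FLC : Prop :=
  ∀ S : Set ℂ, S.Countable → ∃ k : Subfield ℂ, Clo k ∧ ¬ (k : Set ℂ).Countable ∧
    S ⊆ (k : Set ℂ) ∧ ∀ n : ℕ, ∃ a : Fin n → ℂ, AlgebraicIndependent k a

/-- the parameters of a condition. Uses COL -/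
def Stmt_CO3 : Prop :=
  (∀ (R N : ℕ) (ι : Type) (Φ : (ι → K) → Prop), BI R N ι Φ → ∃ S : Set ℂ, S.Countable ∧
    ∀ k : Subfield ℂ, S ⊆ (k : Set ℂ) → BIO (kZ k) R N ι Φ) ∧
  ∀ (R N : ℕ) (ι : Type) (Φ : (ι → K) → Prop), BJ R N ι Φ → ∃ S : Set ℂ, S.Countable ∧
    ∀ k : Subfield ℂ, S ⊆ (k : Set ℂ) → BJO (kZ k) R N ι Φ

/-- specialisation. Uses REP, QFL, QFT, TR2, RA2, PT2, PTF, DFT -/
def Stmt_SPR : Prop :=
  ∀ (s r : ℕ) (k0 : Subfield ℂ) (f : ℂ[X]), TsR s r k0 f →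
    ∀ (N : ℕ) (ι : Type) (Φ : (ι → K) → Prop), BJO (kZ k0) r N ι Φ → Finite ι →
    ∀ (s' : ℕ) (k : Subfield ℂ), s' + 2 * N ≤ s → Dft s' k0 k → ∀ P Q : ι → K[X],
      (∀ i, Co (kZ k) (P i) ∧ Co (kZ k) (Q i) ∧ (Q i).eval (pz f) ≠ 0) →
      Φ (fun i => (P i).eval (pz f) / (Q i).eval (pz f)) →
      ∃ T : Set K, T.Finite ∧ ∀ h : K, h ∉ T → (∀ i, (Q i).eval h ≠ 0) ∧
        Φ (fun i => (P i).eval h / (Q i).eval h)

/-- first theorem. Uses FLC, CO3, TSR, DFT, SPR -/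
def Stmt_FR1 : Prop :=
  ∀ (R N : ℕ) (Φ : (Unit → K) → Prop), BJ R N Unit Φ → (∀ p : ℂ[X], Φ (fun _ => pz p)) →
    {x : K | ¬ Φ (fun _ => x)}.Finite

/-- invariance of the conditions. Uses TR2, RA2, PT2, PTF, DFT, EXP, QTI, QNI -/
def Stmt_INR : Prop :=
  ∀ (s r : ℕ) (k0 : Subfield ℂ) (f : ℂ[X]), ¬ (k0 : Set ℂ).Countable → TsR s r k0 f →
    ∀ (N : ℕ) (ι : Type) (Φ : (ι → K) → Prop), BIO (kZ k0) r N ι Φ →
    ∀ s' : ℕ, s' + 2 * N ≤ s → ∀ (X : Type) [Field X] (ε1 ε2 : X →+* K),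
    Par s' k0 f ε1 ε2 → ∀ y : ι → X, Φ (fun i => ε1 (y i)) ↔ Φ (fun i => ε2 (y i))

/-- second theorem. Uses FLC, CO3, TSR, UNV, DFT, TR2, INR -/
def Stmt_FR2 : Prop :=
  ∀ (R N : ℕ) (Φ : (Unit → K) → Prop), BI R N Unit Φ → {x : K | Φ (fun _ => x)} ≠ O0

end

end EVW
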